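import Mathlib

/-!
# The group `K = ∏ Gam n`, the odometer scales and the base cocycle
-/

namespace Pool.Agent.R806.MC

/-- Permutations of `ℕ` fixing every `i ≥ n`. -/
def Gam (n : ℕ) : Subgroup (Equiv.Perm ℕ) where
  carrier := {σ | ∀ i, n ≤ i → σ i = i}
  one_mem' := fun i _ => rfl
  mul_mem' := by
    intro a b ha hb i hi
    simp only [Equiv.Perm.mul_apply]
    rw [hb i hi, ha i hi]
  inv_mem' := by
    intro a ha i hi
    rw [Equiv.Perm.inv_eq_iff_eq]; exact (ha i hi).symm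

theorem mem_Gam {n : ℕ} {σ : Equiv.Perm ℕ} : σ ∈ Gam n ↔ ∀ i, n ≤ i → σ i = i := Iff.rfl

theorem Gam_lt {n : ℕ} {σ : Equiv.Perm ℕ} (h : σ ∈ Gam n) {i : ℕ} (hi : i < n) : σ i < n := by
  by_contra hc
  push Not at hc
  have h1 := h (σ i) hc
  have h2 := σ.injective h1
  omega

theorem Gam_inv_lt {n : ℕ} {σ : Equiv.Perm ℕ} (h : σ ∈ Gam n) {i : ℕ} (hi : i < n) :
    σ⁻¹ i < n := Gam_lt ((Gam n).inv_mem h) hi

instance (n : ℕ) : Finite (Gam n) := by
  let f : Gam n → (Fin n → Fin n) := fun σ i => ⟨σ.1 i, Gam_lt σ.2 i.2⟩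
  refine Finite.of_injective f ?_
  intro σ τ h
  apply Subtype.ext
  apply Equiv.ext
  intro i
  by_cases hi : i < n
  · have := congrFun h ⟨i, hi⟩
    simpa [f] using this
  · push Not at hi
    rw [σ.2 i hi, τ.2 i hi]

instance (n : ℕ) : TopologicalSpace (Gam n) := ⊥

instance (n : ℕ) : DiscreteTopology (Gam n) := ⟨rfl⟩

/-- The compact group `∏ Gam n`. -/
abbrev K : Type := (n : ℕ) → Gam n

theorem exists_cover (n : ℕ) : ∃ (m : ℕ) (P : ℕ → K × K), ∀ a b : K, ∃ i < m,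
    (∀ l ≤ n, (P i).1 l = a l) ∧ ∀ l ≤ n, (P i).2 l = b l := by
  let Q := (i : Fin (n + 1)) → Gam i
  let res : K → Q := fun a i => a i
  let sec : Q → K := fun q l => if h : l < n + 1 then q ⟨l, h⟩ else 1
  have hsec : ∀ a : K, ∀ l ≤ n, sec (res a) l = a l := by
    intro a l hl
    have h : l < n + 1 := by omega
    show (if h : l < n + 1 then res a ⟨l, h⟩ else 1) = a l
    rw [dif_pos h]
  obtain ⟨m, ⟨e⟩⟩ := Finite.exists_equiv_fin (Q × Q)
  refine ⟨m, fun i => if h : i < m then (sec (e.symm ⟨i, h⟩).1, sec (e.symm ⟨i, h⟩).2) else (1, 1),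
    fun a b => ⟨(e (res a, res b)).1, (e (res a, res b)).2, ?_, ?_⟩⟩
  · intro l hl
    simp [hsec a l hl]
  · intro l hl
    simp [hsec b l hl]

theorem exists_list (n : ℕ) : ∃ (r : ℕ) (k : ℕ → K), 2 ≤ r ∧ k 0 = 1 ∧ k (r - 1) = 1 ∧
    ∀ a b : K, ∃ j, j + 1 < r ∧ (∀ i ≤ n, k j i = a i) ∧ (∀ i ≤ n, k (j + 1) i = b i) := by
  obtain ⟨m, P, hP⟩ := exists_cover n
  refine ⟨2 * m + 2, fun j => if j = 0 then 1 else if 2 * m + 1 ≤ j then 1 else
    if j % 2 = 1 then (P (j / 2)).1 else (P (j / 2 - 1)).2, by omega, by simp, by simp, ?_⟩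
  intro a b
  obtain ⟨i, hi, ha, hb⟩ := hP a b
  refine ⟨2 * i + 1, by omega, ?_, ?_⟩
  · intro l hl
    rw [← ha l hl]
    have h1 : ¬ (2 * i + 1 = 0) := by omega
    have h2 : ¬ (2 * m + 1 ≤ 2 * i + 1) := by omega
    have h3 : (2 * i + 1) % 2 = 1 := by omega
    have h4 : (2 * i + 1) / 2 = i := by omega
    simp only [h1, h2, h3, h4, if_true, if_false]
  · intro l hl
    rw [← hb l hl]
    have h1 : ¬ (2 * i + 1 + 1 = 0) := by omega
    have h2 : ¬ (2 * m + 1 ≤ 2 * i + 1 + 1) := by omega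
    have h3 : ¬ ((2 * i + 1 + 1) % 2 = 1) := by omega
    have h4 : (2 * i + 1 + 1) / 2 - 1 = i := by omega
    simp only [h1, h2, h3, h4, if_false]

/-- length of the `n`-th list -/
noncomputable def r (n : ℕ) : ℕ := (exists_list n).choose

/-- the `n`-th list -/
noncomputable def k (n : ℕ) : ℕ → K := (exists_list n).choose_spec.choose

theorem r_two (n : ℕ) : 2 ≤ r n := (exists_list n).choose_spec.choose_spec.1
theorem k_zero (n : ℕ) : k n 0 = 1 := (exists_list n).choose_spec.choose_spec.2.1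
theorem k_last (n : ℕ) : k n (r n - 1) = 1 := (exists_list n).choose_spec.choose_spec.2.2.1
theorem k_cover (n : ℕ) (a b : K) : ∃ j, j + 1 < r n ∧ (∀ i ≤ n, k n j i = a i) ∧
    (∀ i ≤ n, k n (j + 1) i = b i) := (exists_list n).choose_spec.choose_spec.2.2.2 a b

/-- the scales of the odometer -/
noncomputable def M : ℕ → ℕ
  | 0 => 1
  | n + 1 => r n * M n

@[simp] theorem M_zero : M 0 = 1 := rfl
theorem M_succ (n : ℕ) : M (n + 1) = r n * M n := rfl

theorem two_pow_le_M (n : ℕ) : 2 ^ n ≤ M n := by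
  induction n with
  | zero => simp
  | succ n ih =>
    rw [M_succ, pow_succ, mul_comm]
    exact Nat.mul_le_mul (r_two n) ih

theorem lt_M (n : ℕ) : n < M n := lt_of_lt_of_le Nat.lt_two_pow_self (two_pow_le_M n)

theorem M_pos (n : ℕ) : 0 < M n := lt_of_le_of_lt (Nat.zero_le _) (lt_M n)

theorem M_posZ (n : ℕ) : (0 : ℤ) < M n := by exact_mod_cast M_pos n

instance (n : ℕ) : NeZero (M n) := ⟨(M_pos n).ne'⟩

theorem M_dvd {m n : ℕ} (h : m ≤ n) : M m ∣ M n := by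
  induction n, h using Nat.le_induction with
  | base => exact dvd_rfl
  | succ n _ ih => exact ih.trans (Dvd.intro_left _ rfl)

theorem M_dvdZ {m n : ℕ} (h : m ≤ n) : (M m : ℤ) ∣ M n := by exact_mod_cast M_dvd h

theorem M_mono {m n : ℕ} (h : m ≤ n) : M m ≤ M n := Nat.le_of_dvd (M_pos n) (M_dvd h)

theorem M_monoZ {m n : ℕ} (h : m ≤ n) : (M m : ℤ) ≤ M n := by exact_mod_cast M_mono h

/-- digit -/
noncomputable def dg (n : ℕ) (s : ℤ) : ℕ := ((s / (M n : ℤ)) % (r n : ℤ)).toNat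

/-- partial products -/
noncomputable def w : ℕ → ℤ → K
  | 0, _ => 1
  | n + 1, s => k n (dg n s) * w n s

theorem w_zero (s : ℤ) : w 0 s = 1 := rfl
theorem w_succ (n : ℕ) (s : ℤ) : w (n + 1) s = k n (dg n s) * w n s := rfl

theorem dg_add_mul (n : ℕ) (s q : ℤ) : dg n (s + M (n + 1) * q) = dg n s := by
  unfold dg
  have h : s + (M (n + 1) : ℤ) * q = s + (M n : ℤ) * ((r n : ℤ) * q) := by
    rw [M_succ]; push_cast; ring
  rw [h, Int.add_mul_ediv_left _ _ (M_posZ n).ne', Int.add_mul_emod_self_left]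

theorem w_add_mul (n : ℕ) : ∀ (s q : ℤ), w n (s + M n * q) = w n s := by
  induction n with
  | zero => intro s q; rfl
  | succ n ih =>
    intro s q
    rw [w_succ, w_succ, dg_add_mul]
    congr 1
    have h : s + (M (n + 1) : ℤ) * q = s + (M n : ℤ) * ((r n : ℤ) * q) := by
      rw [M_succ]; push_cast; ring
    rw [h, ih]

theorem w_stab_succ (n : ℕ) (s : ℤ) (h1 : -(M n : ℤ) ≤ s) (h2 : s < M n) :
    w (n + 1) s = w n s := by
  rw [w_succ]
  have hr := r_two n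
  have : k n (dg n s) = 1 := by
    unfold dg
    rcases lt_or_ge s 0 with hs | hs
    · have e : s / (M n : ℤ) = -1 := by
        have h3 : (-1 : ℤ) ≤ s / (M n : ℤ) := by
          rw [Int.le_ediv_iff_mul_le (M_posZ n)]; linarith
        have h4 : s / (M n : ℤ) < 0 := Int.ediv_neg_of_neg_of_pos hs (M_posZ n)
        omega
      rw [e]
      have e2 : (-1 : ℤ) % (r n : ℤ) = (r n : ℤ) - 1 := by
        rw [Int.emod_eq_iff (by omega)]
        refine ⟨by omega, ?_, ?_⟩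
        · have : ((r n : ℤ).natAbs : ℤ) = r n := by simp
          omega
        · exact ⟨1, by ring⟩
      rw [e2]
      have e3 : ((r n : ℤ) - 1).toNat = r n - 1 := by omega
      rw [e3, k_last]
    · rw [Int.ediv_eq_zero_of_lt hs h2]
      simp [k_zero]
  rw [this, one_mul]

theorem w_stab {n m : ℕ} (hnm : n ≤ m) (s : ℤ) (h1 : -(M n : ℤ) ≤ s) (h2 : s < M n) :
    w m s = w n s := by
  induction m, hnm using Nat.le_induction with
  | base => rfl
  | succ m hm ih =>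
    rw [w_stab_succ, ih]
    · have := M_monoZ hm; omega
    · have := M_monoZ hm; omega

/-- the base cocycle state -/
noncomputable def κ0 (s : ℤ) : K := w s.natAbs s

theorem κ0_eq_of_bound {n : ℕ} {s : ℤ} (h1 : -(M n : ℤ) ≤ s) (h2 : s < M n) : κ0 s = w n s := by
  unfold κ0
  have h3 : (s.natAbs : ℤ) < M s.natAbs := by exact_mod_cast lt_M _
  rcases le_total n s.natAbs with h | h
  · exact w_stab h s h1 h2
  · exact (w_stab h s (by omega) (by omega)).symm

theorem κ0_eq_of_le {n : ℕ} {s : ℤ} (h : s.natAbs ≤ n) : κ0 s = w n s := by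
  have h3 : (n : ℤ) < M n := by exact_mod_cast lt_M _
  apply κ0_eq_of_bound <;> omega

theorem w_nil (n : ℕ) : w n 0 = 1 := by
  rw [w_stab (Nat.zero_le n) 0 (by simp) (by simp)]; rfl

theorem w_neg_one (n : ℕ) : w n (-1) = 1 := by
  rw [w_stab (Nat.zero_le n) (-1) (by simp) (by simp)]; rfl

theorem κ0_zero : κ0 0 = 1 := w_nil _

theorem w_block {L n : ℕ} (h : L ≤ n) (q i : ℤ) (h0 : 0 ≤ i) (h1 : i < M L) :
    w n (q * M L + i) = w n (q * M L) * w L i := by
  induction n, h using Nat.le_induction with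
  | base =>
    have e1 : q * (M L : ℤ) + i = i + M L * q := by ring
    have e2 : q * (M L : ℤ) = 0 + M L * q := by ring
    rw [e1, w_add_mul, e2, w_add_mul, w_nil, one_mul]
  | succ n hn ih =>
    rw [w_succ, w_succ, ih, mul_assoc]
    congr 2
    unfold dg
    obtain ⟨c, hc⟩ := M_dvdZ hn
    have hL := M_posZ L
    have e1 : (q * (M L : ℤ) + i) / (M n : ℤ) = q * (M L : ℤ) / (M n : ℤ) := by
      rw [hc, ← Int.ediv_ediv_of_nonneg hL.le, ← Int.ediv_ediv_of_nonneg hL.le]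
      congr 1
      rw [add_comm, Int.add_mul_ediv_right _ _ hL.ne', Int.ediv_eq_zero_of_lt h0 h1, zero_add,
        Int.mul_ediv_cancel _ hL.ne']
    rw [e1]

theorem κ0_block (L : ℕ) (q i : ℤ) (h0 : 0 ≤ i) (h1 : i < M L) :
    κ0 (q * M L + i) = κ0 (q * M L) * w L i := by
  obtain ⟨n, hn1, hn2, hn3⟩ : ∃ n : ℕ, L ≤ n ∧ (q * M L + i).natAbs ≤ n ∧
      (q * (M L : ℤ)).natAbs ≤ n :=
    ⟨L + (q * M L + i).natAbs + (q * (M L : ℤ)).natAbs, by omega, by omega, by omega⟩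
  rw [κ0_eq_of_le hn2, κ0_eq_of_le hn3, w_block hn1 q i h0 h1]

theorem w_step (L : ℕ) (j : ℕ) (hj : j < r L) : w (L + 1) (j * M L) = k L j := by
  rw [w_succ]
  have e1 : (j : ℤ) * (M L : ℤ) = 0 + M L * j := by ring
  have e2 : dg L ((j : ℤ) * (M L : ℤ)) = j := by
    unfold dg
    rw [Int.mul_ediv_cancel _ (M_posZ L).ne', Int.emod_eq_of_lt (by omega) (by omega)]
    simp
  rw [e2, e1, w_add_mul, w_nil, mul_one]

theorem κ0_step (L : ℕ) (q : ℤ) (j : ℕ) (hj : j < r L) :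
    κ0 (q * M (L + 1) + j * M L) = κ0 (q * M (L + 1)) * k L j := by
  rw [κ0_block, w_step L j hj]
  · positivity
  · rw [M_succ]
    push_cast
    have : (j : ℤ) < r L := by exact_mod_cast hj
    exact mul_lt_mul_of_pos_right this (M_posZ L)

/-- values inside a block of level `L+1`, around the position `j+1` -/
theorem κ0_pos (L : ℕ) (q : ℤ) (j : ℕ) (hj : j + 1 < r L) (t : ℤ) (h0 : 0 ≤ t) (h1 : t < M L) :
    κ0 (q * M (L + 1) + (j + 1 : ℕ) * M L + t) = κ0 (q * M (L + 1)) * k L (j + 1) * w L t := by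
  have e : q * (M (L + 1) : ℤ) + (j + 1 : ℕ) * M L + t
      = (q * r L + (j + 1 : ℕ)) * M L + t := by rw [M_succ]; push_cast; ring
  have e2 : (q * (r L : ℤ) + (j + 1 : ℕ)) * M L = q * (M (L + 1) : ℤ) + (j + 1 : ℕ) * M L := by
    rw [M_succ]; push_cast; ring
  rw [e, κ0_block L _ t h0 h1, e2, κ0_step L q (j + 1) hj]

theorem κ0_neg (L : ℕ) (q : ℤ) (j : ℕ) (hj : j + 1 < r L) (t : ℤ) (h0 : -(M L : ℤ) ≤ t)
    (h1 : t < 0) :
    κ0 (q * M (L + 1) + (j + 1 : ℕ) * M L + t) = κ0 (q * M (L + 1)) * k L j * w L t := by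
  have e : q * (M (L + 1) : ℤ) + (j + 1 : ℕ) * M L + t
      = (q * r L + (j : ℕ)) * M L + (t + M L) := by rw [M_succ]; push_cast; ring
  have e2 : (q * (r L : ℤ) + (j : ℕ)) * M L = q * (M (L + 1) : ℤ) + (j : ℕ) * M L := by
    rw [M_succ]; push_cast; ring
  have e3 : t + (M L : ℤ) = t + M L * 1 := by ring
  rw [e, κ0_block L _ _ (by omega) (by omega), e2, κ0_step L q j (by omega), e3, w_add_mul]

/-- the one step cocycle -/
noncomputable def φ (s : ℤ) : K := (κ0 (s - 1))⁻¹ * κ0 s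

theorem φ_eq (n : ℕ) (s : ℤ) (h : ¬ (M n : ℤ) ∣ s) : φ s = (w n (s - 1))⁻¹ * w n s := by
  unfold φ
  have hM := M_posZ n
  have h0 : 0 ≤ s % M n := Int.emod_nonneg _ hM.ne'
  have h1 : s % M n < M n := Int.emod_lt_of_pos _ hM
  have h2 : s % M n ≠ 0 := fun e => h (Int.dvd_of_emod_eq_zero e)
  have e1 : s = (s / M n) * M n + s % M n := by
    rw [mul_comm]; exact (Int.mul_ediv_add_emod s (M n)).symm
  have e2 : s - 1 = (s / M n) * M n + (s % M n - 1) := by linarith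
  have a1 : κ0 s = κ0 ((s / M n) * M n) * w n (s % M n) := by
    conv_lhs => rw [e1]
    exact κ0_block n _ _ h0 h1
  have a2 : κ0 (s - 1) = κ0 ((s / M n) * M n) * w n (s % M n - 1) := by
    rw [e2]
    exact κ0_block n _ _ (by omega) (by omega)
  have a3 : w n s = w n (s % M n) := by
    conv_lhs => rw [e1, add_comm, mul_comm, w_add_mul]
  have a4 : w n (s - 1) = w n (s % M n - 1) := by
    conv_lhs => rw [e2, add_comm, mul_comm, w_add_mul]
  rw [a1, a2, a3, a4]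
  group

theorem φ_per (n : ℕ) (s q : ℤ) (h : ¬ (M n : ℤ) ∣ s) : φ (s + M n * q) = φ s := by
  have h' : ¬ (M n : ℤ) ∣ s + M n * q := by
    rwa [Int.dvd_add_self_mul]
  rw [φ_eq n s h, φ_eq n _ h', w_add_mul]
  have : s + (M n : ℤ) * q - 1 = (s - 1) + M n * q := by ring
  rw [this, w_add_mul]

theorem exists_not_dvd {s : ℤ} (h : s ≠ 0) : ∃ n, ¬ (M (n + 1) : ℤ) ∣ s := by
  refine ⟨s.natAbs, fun hd => ?_⟩
  have h1 := Int.le_of_dvd (by positivity : (0 : ℤ) < |s|) ((dvd_abs _ _).2 hd)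
  have h2 : ((s.natAbs + 1 : ℕ) : ℤ) < M (s.natAbs + 1) := by exact_mod_cast lt_M _
  have h3 : ((s.natAbs : ℕ) : ℤ) = |s| := Int.natCast_natAbs s
  push_cast at h2
  omega

open Classical in
/-- the level of a nonzero integer -/
noncomputable def lev (s : ℤ) : ℕ :=
  if h : ∃ n, ¬ (M (n + 1) : ℤ) ∣ s then Nat.find h else 0

theorem lev_eq {s : ℤ} {l : ℕ} (h1 : (M l : ℤ) ∣ s) (h2 : ¬ (M (l + 1) : ℤ) ∣ s) :
    lev s = l := by
  have h : ∃ n, ¬ (M (n + 1) : ℤ) ∣ s := ⟨l, h2⟩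
  unfold lev
  rw [dif_pos h, Nat.find_eq_iff]
  refine ⟨h2, fun n hn => ?_⟩
  rw [not_not]
  exact (M_dvdZ (by omega)).trans h1

theorem lev_spec {s : ℤ} (hs : s ≠ 0) : (M (lev s) : ℤ) ∣ s ∧ ¬ (M (lev s + 1) : ℤ) ∣ s := by
  have h := exists_not_dvd hs
  have e : lev s = Nat.find h := by unfold lev; rw [dif_pos h]
  rw [e]
  refine ⟨?_, Nat.find_spec h⟩
  rcases Nat.eq_zero_or_pos (Nat.find h) with h0 | h0
  · rw [h0]; simp
  · have := Nat.find_min h (m := Nat.find h - 1) (by omega)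
    rw [not_not] at this
    have e2 : Nat.find h - 1 + 1 = Nat.find h := by omega
    rwa [e2] at this

end Pool.Agent.R806.MC
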