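import Pool.Agent.R806.MC.Sys

/-!
# Combinatorial part of the recovery of the isomorphism
-/

namespace Pool.Agent.R806.MC

/-- the displays of `c n * σ` are determined by a finite part of the displays of `σ` -/
def Cond (G G' : ℕ → ℕ → Bool) (c : K) : Prop :=
  ∀ i' j', ∃ N, ∀ n ≥ N, ∀ n' ≥ N, ∀ σ ∈ Gam n, ∀ σ' ∈ Gam n',
    (∀ i < N, ∀ j < N, F G σ i j = F G σ' i j) →
      F G' ((c n : Equiv.Perm ℕ) * σ) i' j' = F G' ((c n' : Equiv.Perm ℕ) * σ') i' j'

theorem F_diag (G : ℕ → ℕ → Bool) (σ : Equiv.Perm ℕ) (i : ℕ) :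
    F G σ i i = decide (Even (σ⁻¹ i)) := by
  unfold F; rw [if_pos rfl]

theorem F_off (G : ℕ → ℕ → Bool) (σ : Equiv.Perm ℕ) {i j : ℕ} (h : i ≠ j) :
    F G σ i j = (G i j && decide (σ⁻¹ i < σ⁻¹ j)) := by
  unfold F; rw [if_neg h]

theorem swap_mem_Gam {n p q : ℕ} (hp : p < n) (hq : q < n) : Equiv.swap p q ∈ Gam n := by
  intro i hi
  exact Equiv.swap_apply_of_ne_of_ne (by omega) (by omega)

theorem Cond.eventually_const {G G' : ℕ → ℕ → Bool} {c : K} (h : Cond G G' c) (i' : ℕ) :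
    ∃ N p, ∀ n ≥ N, (c n : Equiv.Perm ℕ)⁻¹ i' = p := by
  obtain ⟨N, hN⟩ := h i' i'
  have key1 : ∀ n, N + 2 + (i' + 1) ≤ n → (c n : Equiv.Perm ℕ)⁻¹ i' < N := by
    intro n hn
    by_contra hc
    push Not at hc
    set p := (c n : Equiv.Perm ℕ)⁻¹ i' with hp
    have hpn : p < n := Gam_inv_lt (c n).2 (by omega)
    obtain ⟨q, hq1, hq2, hq3, hq4⟩ : ∃ q, N ≤ q ∧ q < n ∧ q ≠ p ∧ (q % 2 ≠ p % 2) := by
      by_cases h1 : p + 1 < n
      · exact ⟨p + 1, by omega, by omega, by omega, by omega⟩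
      · exact ⟨p - 1, by omega, by omega, by omega, by omega⟩
    have h2 := hN n (by omega) n (by omega) 1 (Gam n).one_mem (Equiv.swap p q)
      (swap_mem_Gam hpn hq2) (F_congr (by
        intro i hi
        rw [Equiv.swap_inv, Equiv.swap_apply_of_ne_of_ne (by omega) (by omega)]
        rfl))
    rw [F_diag, F_diag, mul_one, mul_inv_rev, Equiv.Perm.mul_apply, ← hp, Equiv.swap_inv,
      Equiv.swap_apply_left, decide_eq_decide, Nat.even_iff, Nat.even_iff] at h2
    omega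
  refine ⟨N + 2 + (i' + 1), (c (N + 2 + (i' + 1)) : Equiv.Perm ℕ)⁻¹ i', fun n hn => ?_⟩
  have a1 := key1 n hn
  have a2 := key1 (N + 2 + (i' + 1)) le_rfl
  generalize hn' : N + 2 + (i' + 1) = n' at *
  set p := (c n : Equiv.Perm ℕ)⁻¹ i' with hp
  set p' := (c n' : Equiv.Perm ℕ)⁻¹ i' with hp'
  by_contra hne
  by_cases hpar : p % 2 = p' % 2
  · have h2 := hN n (by omega) n' (by omega) (Equiv.swap p (p + 1))
      (swap_mem_Gam (by omega) (by omega)) (Equiv.swap p (p + 1))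
      (swap_mem_Gam (by omega) (by omega)) (fun _ _ _ _ => rfl)
    rw [F_diag, F_diag, mul_inv_rev, mul_inv_rev, Equiv.Perm.mul_apply, Equiv.Perm.mul_apply,
      ← hp, ← hp', Equiv.swap_inv, Equiv.swap_apply_left,
      Equiv.swap_apply_of_ne_of_ne (by omega) (by omega), decide_eq_decide, Nat.even_iff,
      Nat.even_iff] at h2
    omega
  · have h2 := hN n (by omega) n' (by omega) 1 (Gam n).one_mem 1 (Gam n').one_mem
      (fun _ _ _ _ => rfl)
    rw [F_diag, F_diag, mul_one, mul_one, ← hp, ← hp', decide_eq_decide, Nat.even_iff,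
      Nat.even_iff] at h2
    omega

theorem Cond.edge {G G' : ℕ → ℕ → Bool} {c : K} (h : Cond G G' c) (hs : ∀ i j, G i j = G j i)
    {i' j' i j N1 : ℕ} (hij : i ≠ j) (hij' : i' ≠ j')
    (hi : ∀ n ≥ N1, (c n : Equiv.Perm ℕ)⁻¹ i' = i)
    (hj : ∀ n ≥ N1, (c n : Equiv.Perm ℕ)⁻¹ j' = j) (hG' : G' i' j' = true) : G i j = true := by
  by_contra hG
  rw [Bool.not_eq_true] at hG
  have hG2 : G j i = false := by rw [hs, hG]
  obtain ⟨N0, hN0⟩ := h i' j'
  obtain ⟨N, hN⟩ : ∃ N, N = N0 + i + j + 1 := ⟨_, rfl⟩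
  obtain ⟨n, hn⟩ : ∃ n, n = 2 * N + 3 + N1 := ⟨_, rfl⟩
  obtain ⟨ρ, hρ⟩ : ∃ ρ : Equiv.Perm ℕ, ρ = Equiv.swap i (2 * N) * Equiv.swap j (2 * N + 2) :=
    ⟨_, rfl⟩
  have ρi : ρ i = 2 * N := by
    rw [hρ, Equiv.Perm.mul_apply, Equiv.swap_apply_of_ne_of_ne hij (by omega),
      Equiv.swap_apply_left]
  have ρj : ρ j = 2 * N + 2 := by
    rw [hρ, Equiv.Perm.mul_apply, Equiv.swap_apply_left,
      Equiv.swap_apply_of_ne_of_ne (by omega) (by omega)]
  have ρl : ∀ l < N, l ≠ i → l ≠ j → ρ l = l := by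
    intro l hl h1 h2
    rw [hρ, Equiv.Perm.mul_apply, Equiv.swap_apply_of_ne_of_ne h2 (by omega),
      Equiv.swap_apply_of_ne_of_ne h1 (by omega)]
  have hρm : ρ ∈ Gam n := by
    rw [hρ]
    exact (Gam n).mul_mem (swap_mem_Gam (by omega) (by omega))
      (swap_mem_Gam (by omega) (by omega))
  have hsw : Equiv.swap i j ∈ Gam n := swap_mem_Gam (by omega) (by omega)
  have h2 := hN0 n (by omega) n (by omega) ρ⁻¹ ((Gam n).inv_mem hρm) (ρ * Equiv.swap i j)⁻¹
    ((Gam n).inv_mem ((Gam n).mul_mem hρm hsw)) (by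
      intro a ha b hb
      have e : ∀ l < N, (l = i ∧ ρ l = 2 * N ∧ ρ (Equiv.swap i j l) = 2 * N + 2) ∨
          (l = j ∧ ρ l = 2 * N + 2 ∧ ρ (Equiv.swap i j l) = 2 * N) ∨
          (l ≠ i ∧ l ≠ j ∧ ρ l = l ∧ ρ (Equiv.swap i j l) = l) := by
        intro l hl
        by_cases h1 : l = i
        · left
          refine ⟨h1, by rw [h1, ρi], by rw [h1, Equiv.swap_apply_left, ρj]⟩
        by_cases h2 : l = j
        · right; left
          refine ⟨h2, by rw [h2, ρj], by rw [h2, Equiv.swap_apply_right, ρi]⟩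
        right; right
        refine ⟨h1, h2, ρl l hl h1 h2, ?_⟩
        rw [Equiv.swap_apply_of_ne_of_ne h1 h2, ρl l hl h1 h2]
      by_cases hab : a = b
      · subst hab
        rw [F_diag, F_diag, inv_inv, inv_inv, Equiv.Perm.mul_apply, decide_eq_decide,
          Nat.even_iff, Nat.even_iff]
        rcases e a (by omega) with ⟨-, h3, h4⟩ | ⟨-, h3, h4⟩ | ⟨-, -, h3, h4⟩ <;> rw [h3, h4]
        · constructor <;> intro <;> omega
        · constructor <;> intro <;> omega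
      · rw [F_off _ _ hab, F_off _ _ hab, inv_inv, inv_inv, Equiv.Perm.mul_apply,
          Equiv.Perm.mul_apply]
        rcases e a (by omega) with ⟨h0, h3, h4⟩ | ⟨h0, h3, h4⟩ | ⟨h0, h0', h3, h4⟩ <;>
        rcases e b (by omega) with ⟨k0, k3, k4⟩ | ⟨k0, k3, k4⟩ | ⟨k0, k0', k3, k4⟩ <;>
        rw [h3, h4, k3, k4]
        · exact absurd (h0.trans k0.symm) hab
        · rw [h0, k0, hG]; simp
        · congr 1; rw [decide_eq_decide]; constructor <;> intro <;> omega
        · rw [h0, k0, hG2]; simp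
        · exact absurd (h0.trans k0.symm) hab
        · congr 1; rw [decide_eq_decide]; constructor <;> intro <;> omega
        · congr 1; rw [decide_eq_decide]; constructor <;> intro <;> omega
        · congr 1; rw [decide_eq_decide]; constructor <;> intro <;> omega)
  rw [F_off _ _ hij', F_off _ _ hij', hG'] at h2
  simp only [mul_inv_rev, Equiv.Perm.mul_apply, inv_inv, hi n (by omega), hj n (by omega),
    Bool.true_and, decide_eq_decide, Equiv.swap_inv, Equiv.swap_apply_left,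
    Equiv.swap_apply_right, ρi, ρj] at h2
  omega

/-- Recovery of the isomorphism. -/
theorem iso_of_cond {G G' : ℕ → ℕ → Bool} (hs : ∀ i j, G i j = G j i) (hi : ∀ i, G i i = false)
    (hs' : ∀ i j, G' i j = G' j i) (hi' : ∀ i, G' i i = false) {c : K} (h : Cond G G' c)
    (h' : Cond G' G c⁻¹) : ∃ g : Equiv.Perm ℕ, ∀ i j, G i j = G' (g i) (g j) := by
  choose A f hf using h.eventually_const
  choose B g hg using h'.eventually_const
  have hg' : ∀ i, ∀ n ≥ B i, (c n : Equiv.Perm ℕ) i = g i := by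
    intro i n hn
    have := hg i n hn
    rw [← this]
    show _ = ((((c n)⁻¹ : Gam n) : Equiv.Perm ℕ))⁻¹ i
    have e : (((c n)⁻¹ : Gam n) : Equiv.Perm ℕ) = (c n : Equiv.Perm ℕ)⁻¹ := rfl
    rw [e, inv_inv]
  have hfg : ∀ i, f (g i) = i := by
    intro i
    have h1 := hf (g i) (A (g i) + B i) (by omega)
    have h2 := hg' i (A (g i) + B i) (by omega)
    rw [Equiv.Perm.inv_eq_iff_eq] at h1
    exact ((c (A (g i) + B i)).1.injective (h2.trans h1)).symm
  have hgf : ∀ i, g (f i) = i := by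
    intro i
    have h1 := hf i (A i + B (f i)) (by omega)
    have h2 := hg' (f i) (A i + B (f i)) (by omega)
    rw [Equiv.Perm.inv_eq_iff_eq] at h1
    exact h2.symm.trans h1.symm
  refine ⟨⟨g, f, hfg, hgf⟩, fun i j => ?_⟩
  show G i j = G' (g i) (g j)
  by_cases hij : i = j
  · subst hij; rw [hi, hi']
  have hgij : g i ≠ g j := fun e => hij (by rw [← hfg i, ← hfg j, e])
  rw [Bool.eq_iff_iff]
  constructor
  · intro hG
    exact h'.edge hs' hgij hij (N1 := B i + B j)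
      (fun n hn => hg i n (by omega)) (fun n hn => hg j n (by omega)) hG
  · intro hG
    refine h.edge hs hij hgij (N1 := A (g i) + A (g j)) (fun n hn => ?_) (fun n hn => ?_) hG
    · rw [hf (g i) n (by omega), hfg]
    · rw [hf (g j) n (by omega), hfg]

end Pool.Agent.R806.MC
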