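import Pool.Agent.R806.MC.Fwd
import Pool.Agent.R806.MC.Comb

/-!
# Conjugate systems come from isomorphic graphs
-/

open Set Filter Topology

namespace Pool.Agent.R806.MC

/-- powers of the homeomorphism of `X G` -/
noncomputable def shm (G : ℕ → ℕ → Bool) (m : ℤ) : X G ≃ₜ X G where
  toFun x := ⟨sh m x.1, sh_mem_X m x.2⟩
  invFun x := ⟨sh (-m) x.1, sh_mem_X (-m) x.2⟩
  left_inv x := Subtype.ext (by
    show sh (-m) (sh m x.1) = x.1
    rw [sh_sh, add_neg_cancel, sh_zero])
  right_inv x := Subtype.ext (by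
    show sh m (sh (-m) x.1) = x.1
    rw [sh_sh, neg_add_cancel, sh_zero])
  continuous_toFun := ((continuous_sh m).comp continuous_subtype_val).subtype_mk _
  continuous_invFun := ((continuous_sh (-m)).comp continuous_subtype_val).subtype_mk _

theorem shm_val (G : ℕ → ℕ → Bool) (m : ℤ) (x : X G) : (shm G m x : Amb) = sh m x.1 := rfl

theorem shm_shm (G : ℕ → ℕ → Bool) (m n : ℤ) (x : X G) : shm G m (shm G n x) = shm G (n + m) x :=
  Subtype.ext (sh_sh _ _ _)

theorem shm_zero (G : ℕ → ℕ → Bool) (x : X G) : shm G 0 x = x := Subtype.ext (sh_zero _)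

theorem comm_shm {G G' : ℕ → ℕ → Bool} {h : X G → X G'} (hc : ∀ x, h (shX G x) = shX G' (h x))
    (m : ℤ) : ∀ x, h (shm G m x) = shm G' m (h x) := by
  have hc1 : ∀ x, h (shm G 1 x) = shm G' 1 (h x) := hc
  induction m using Int.induction_on with
  | zero => intro x; rw [shm_zero, shm_zero]
  | succ m ih =>
    intro x
    have e1 : shm G ((m : ℤ) + 1) x = shm G 1 (shm G m x) := by rw [shm_shm]
    have e2 : shm G' ((m : ℤ) + 1) (h x) = shm G' 1 (shm G' m (h x)) := by rw [shm_shm]
    rw [e1, e2, hc1, ih]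
  | pred m ih =>
    intro x
    have e1 : shm G (-(m : ℤ)) x = shm G 1 (shm G (-(m : ℤ) - 1) x) := by
      rw [shm_shm, sub_add_cancel]
    have e2 : shm G' (-(m : ℤ)) (h x) = shm G' 1 (shm G' (-(m : ℤ) - 1) (h x)) := by
      rw [shm_shm, sub_add_cancel]
    have h1 := ih x
    rw [e1, e2, hc1] at h1
    exact (shm G' 1).injective h1

theorem unif {G : ℕ → ℕ → Bool} {α : Type*} [TopologicalSpace α] [DiscreteTopology α]
    {f : X G → α} (hf : Continuous f) : ∃ N, ∀ x y : X G, Near N x.1 y.1 → f x = f y := by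
  have h1 : ∀ x : X G, ∃ N, ∀ y : X G, Near N x.1 y.1 → f y = f x := by
    intro x
    have h2 : f ⁻¹' {f x} ∈ 𝓝 x := hf.continuousAt ((isOpen_discrete {f x}).mem_nhds rfl)
    rw [nhds_subtype_eq_comap, mem_comap] at h2
    obtain ⟨V, hV, hV2⟩ := h2
    obtain ⟨N, hN⟩ := exists_near_of_mem_nhds hV
    exact ⟨N, fun y hy => hV2 (hN y.1 hy)⟩
  choose N hN using h1
  have : CompactSpace (X G) := isCompact_iff_compactSpace.1 (isCompact_X G)
  obtain ⟨t, -, ht⟩ := isCompact_univ.elim_nhds_subcover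
    (fun x : X G => {y : X G | Near (N x) x.1 y.1})
    (fun x _ => continuous_subtype_val.continuousAt.eventually (eventually_near (N x) x.1))
  refine ⟨t.sup N, fun y y' hyy => ?_⟩
  have h2 := ht (mem_univ y)
  rw [mem_iUnion₂] at h2
  obtain ⟨x, hx, hxy⟩ := h2
  have h3 : Near (N x) x.1 y.1 := hxy
  have h4 : Near (N x) y.1 y'.1 := hyy.mono (Finset.le_sup hx)
  rw [hN x y h3, hN x y' (h3.trans h4)]

/-- the base point -/
noncomputable def pt (G : ℕ → ℕ → Bool) (a b : K) (τ : Equiv.Perm ℕ) : X G :=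
  ⟨P G a b τ, P_mem_X G a b τ⟩

theorem exists_shm_near {G : ℕ → ℕ → Bool} (x : X G) (N : ℕ) :
    ∃ m : ℤ, Near N x.1 (shm G m (pt G 1 1 1)).1 := by
  have h := x.2
  unfold X at h
  rw [mem_closure_iff_near] at h
  obtain ⟨_, ⟨m, rfl⟩, hm⟩ := h N
  exact ⟨m, hm⟩

theorem const_of_inv {G : ℕ → ℕ → Bool} {α : Type*} [TopologicalSpace α] [DiscreteTopology α]
    {f : X G → α} (hf : Continuous f) (h : ∀ x, f (shX G x) = f x) (x : X G) :
    f x = f (pt G 1 1 1) := by
  obtain ⟨N, hN⟩ := unif hf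
  obtain ⟨m, hm⟩ := exists_shm_near x N
  rw [hN _ _ hm]
  have h1 : ∀ x, f (shm G 1 x) = f x := h
  induction m using Int.induction_on generalizing x with
  | zero => rw [shm_zero]
  | succ m ih =>
    have e1 : shm G ((m : ℤ) + 1) (pt G 1 1 1) = shm G 1 (shm G m (pt G 1 1 1)) := by rw [shm_shm]
    rw [e1, h1]
    exact ih _ (Near.refl _ _)
  | pred m ih =>
    have e1 : shm G (-(m : ℤ)) (pt G 1 1 1) = shm G 1 (shm G (-(m : ℤ) - 1) (pt G 1 1 1)) := by
      rw [shm_shm, sub_add_cancel]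
    have := ih _ (Near.refl _ _)
    rw [e1, h1] at this
    exact this

section

variable {G G' : ℕ → ℕ → Bool}

theorem continuous_z (n : ℕ) : Continuous fun x : Amb => x.1 n :=
  (continuous_apply n).comp continuous_fst

theorem continuous_κ (t : ℤ) (i : ℕ) : Continuous fun x : Amb => x.2.1 t i :=
  (continuous_apply i).comp ((continuous_apply t).comp (continuous_fst.comp continuous_snd))

theorem continuous_δ (t : ℤ) (i j : ℕ) : Continuous fun x : Amb => x.2.2 t i j :=
  (continuous_apply j).comp ((continuous_apply i).comp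
    ((continuous_apply t).comp (continuous_snd.comp continuous_snd)))

/-- the odometer coordinate is translated by a constant -/
theorem z_const (h : X G ≃ₜ X G') (hc : ∀ x, h (shX G x) = shX G' (h x)) (x : X G) (n : ℕ) :
    (h x).1.1 n = x.1.1 n + (h (pt G 1 1 1)).1.1 n := by
  have hf : Continuous fun x : X G => (h x).1.1 n - x.1.1 n :=
    (continuous_of_discreteTopology (f := fun p : ZMod (M n) × ZMod (M n) => p.1 - p.2)).comp
      (((continuous_z n).comp (continuous_subtype_val.comp h.continuous)).prodMk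
        ((continuous_z n).comp continuous_subtype_val))
  have h1 := const_of_inv hf (fun x => by
    show (h (shX G x)).1.1 n - (shX G x).1.1 n = (h x).1.1 n - x.1.1 n
    rw [hc]
    show ((h x).1.1 n + ((1 : ℤ) : ZMod (M n))) - (x.1.1 n + ((1 : ℤ) : ZMod (M n))) = _
    ring) x
  have h2 : (h x).1.1 n - x.1.1 n = (h (pt G 1 1 1)).1.1 n - (0 : ZMod (M n)) := h1
  rw [sub_zero] at h2
  rw [← h2]; ring

theorem eq_of_nonint {u v : Amb} (hu : u ∈ X G') (hv : v ∈ X G') (hz : u.1 = v.1)
    (hn : ∀ t : ℤ, ∃ n, u.1 n + (t : ZMod (M n)) ≠ 0)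
    (hκ : ∀ i, ∃ t, u.2.1 t i = v.2.1 t i) : u = v := by
  have h1 : u.2.1 = v.2.1 := by
    have key : ∀ i t, (u.2.1 t i = v.2.1 t i ↔ u.2.1 (t - 1) i = v.2.1 (t - 1) i) := by
      intro i t
      obtain ⟨n, hn⟩ := hn t
      rw [X_z_cocycle hu n t hn, X_z_cocycle hv n t (hz ▸ hn), ← hz]
      simp
    funext t i
    obtain ⟨t0, ht0⟩ := hκ i
    refine Int.inductionOn' (motive := fun t => u.2.1 t i = v.2.1 t i) t t0 ht0 ?_ ?_
    · intro k _ ih
      rw [key]
      simpa using ih
    · intro k _ ih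
      exact (key i k).1 ih
  refine Prod.ext hz (Prod.ext h1 ?_)
  funext t
  classical
  have hex := hn t
  have h0 : Nat.find hex ≠ 0 := by
    intro h0
    have := Nat.find_spec hex
    rw [h0] at this
    apply this
    have : Subsingleton (ZMod (M 0)) := by
      show Subsingleton (ZMod 1)
      infer_instance
    exact Subsingleton.elim _ _
  obtain ⟨l, hl⟩ := Nat.exists_eq_succ_of_ne_zero h0
  have h2 := Nat.find_spec hex
  have h3 := Nat.find_min hex (m := l) (by omega)
  rw [hl] at h2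
  rw [not_not] at h3
  rw [X_display hu l t h3 h2, X_display hv l t (hz ▸ h3) (hz ▸ h2), h1]

theorem exists_int (h : X G ≃ₜ X G') (hc : ∀ x, h (shX G x) = shX G' (h x)) :
    ∃ t0 : ℤ, ∀ n, (h (pt G 1 1 1)).1.1 n + (t0 : ZMod (M n)) = 0 := by
  by_contra hcon
  push Not at hcon
  let a : K := Function.update 1 2 ⟨Equiv.swap 0 1, swap_mem_Gam (by norm_num) (by norm_num)⟩
  have ha : a ≠ 1 := by
    intro e
    have h1 := congrFun e 2
    simp only [a, Function.update_self] at h1
    have h2 := congrArg (fun σ : Gam 2 => (σ : Equiv.Perm ℕ) 0) h1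
    simp at h2
  set x := pt G a 1 1 with hx
  set y := pt G 1 1 1 with hy
  have hne : x ≠ y := by
    intro e
    have h1 : x.1.2.1 (-1) = y.1.2.1 (-1) := by rw [e]
    have h2 : st a 1 (-1) = st 1 1 (-1) := h1
    unfold st at h2
    rw [if_pos (by norm_num), if_pos (by norm_num)] at h2
    exact ha (mul_right_cancel h2)
  have hnear : ∀ N : ℕ, Near N (shm G N x).1 (shm G N y).1 := by
    intro N
    refine ⟨fun n _ => rfl, fun t ht i _ => ?_, fun t ht i _ j _ => ?_⟩
    · show st a 1 (t + N) i = st 1 1 (t + N) i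
      unfold st
      rw [if_neg (by omega), if_neg (by omega)]
    · show (if t + (N : ℤ) = 0 then F G 1 else F G (st a 1 (t + N) (lev (t + N)))) i j =
        (if t + (N : ℤ) = 0 then F G 1 else F G (st 1 1 (t + N) (lev (t + N)))) i j
      have : st a 1 (t + N) = st 1 1 (t + N) := by
        unfold st
        rw [if_neg (by omega), if_neg (by omega)]
      rw [this]
  have hzx : ∀ n, (h x).1.1 n = (h y).1.1 n := by
    intro n
    rw [z_const h hc x n]
    show (0 : ZMod (M n)) + _ = _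
    rw [zero_add]
  apply hne
  apply h.injective
  apply Subtype.ext
  apply eq_of_nonint (h x).2 (h y).2 (funext hzx)
  · intro t
    obtain ⟨n, hn⟩ := hcon t
    exact ⟨n, by rw [hzx]; exact hn⟩
  · intro i
    have hf : Continuous fun x : X G => (h x).1.2.1 0 i :=
      (continuous_κ 0 i).comp (continuous_subtype_val.comp h.continuous)
    obtain ⟨N, hN⟩ := unif hf
    have h1 := hN _ _ (hnear N)
    simp only [comm_shm hc] at h1
    exact ⟨0 + N, h1⟩

/-- normalisation: the conjugacy preserves the odometer coordinate -/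
theorem exists_normalised (h : X G ≃ₜ X G') (hc : ∀ x, h (shX G x) = shX G' (h x)) :
    ∃ h' : X G ≃ₜ X G', (∀ x, h' (shX G x) = shX G' (h' x)) ∧ ∀ x, (h' x).1.1 = x.1.1 := by
  obtain ⟨t0, ht0⟩ := exists_int h hc
  refine ⟨h.trans (shm G' t0), fun x => ?_, fun x => ?_⟩
  · show shm G' t0 (h (shX G x)) = shm G' 1 (shm G' t0 (h x))
    rw [hc]
    show shm G' t0 (shm G' 1 (h x)) = _
    rw [shm_shm, shm_shm, add_comm]
  · funext n
    show (h x).1.1 n + (t0 : ZMod (M n)) = x.1.1 n
    rw [z_const h hc x n, add_assoc, ht0, add_zero]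

theorem exists_trans (h : X G ≃ₜ X G') (hc : ∀ x, h (shX G x) = shX G' (h x))
    (hz : ∀ x, (h x).1.1 = x.1.1) : ∃ c : K, ∀ x, (h x).1.2.1 0 = c * x.1.2.1 0 := by
  have key : ∀ i, ∃ ci : Gam i, ∀ x, (h x).1.2.1 0 i = ci * x.1.2.1 0 i := by
    intro i
    let f : X G → Gam i := fun x => (h x).1.2.1 0 i * (x.1.2.1 0 i)⁻¹
    have hf : Continuous f :=
      (continuous_of_discreteTopology (f := fun p : Gam i × Gam i => p.1 * p.2⁻¹)).comp
        (((continuous_κ 0 i).comp (continuous_subtype_val.comp h.continuous)).prodMk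
        ((continuous_κ 0 i).comp continuous_subtype_val))
    set p0 := pt G 1 1 1 with hp0
    have hfm : ∀ m : ℤ, f (shm G m p0) = (h p0).1.2.1 m i * (p0.1.2.1 m i)⁻¹ := by
      intro m
      show (h (shm G m p0)).1.2.1 0 i * (p0.1.2.1 (0 + m) i)⁻¹ = _
      rw [comm_shm hc]
      show (h p0).1.2.1 (0 + m) i * (p0.1.2.1 (0 + m) i)⁻¹ = _
      rw [zero_add]
    have hstep : ∀ m : ℤ, m ≠ 0 → f (shm G m p0) = f (shm G (m - 1) p0) := by
      intro m hm
      rw [hfm, hfm]
      obtain ⟨n, hn⟩ := exists_not_dvd hm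
      have hn1 : p0.1.1 (n + 1) + (m : ZMod (M (n + 1))) ≠ 0 := by
        show (0 : ZMod (M (n + 1))) + (m : ZMod (M (n + 1))) ≠ 0
        rwa [zero_add, Ne, ZMod.intCast_zmod_eq_zero_iff_dvd]
      have hn2 : (h p0).1.1 (n + 1) + (m : ZMod (M (n + 1))) ≠ 0 := by rw [hz]; exact hn1
      rw [X_z_cocycle p0.2 (n + 1) m hn1, X_z_cocycle (h p0).2 (n + 1) m hn2, hz]
      simp [mul_assoc]
    have hpos : ∀ m : ℕ, f (shm G m p0) = f (shm G 0 p0) := by
      intro m
      induction m with
      | zero => rfl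
      | succ m ih =>
        rw [hstep _ (by omega), ← ih]
        have e : ((m + 1 : ℕ) : ℤ) - 1 = m := by push_cast; ring
        rw [e]
    have hneg : ∀ m : ℕ, f (shm G (-1 - m) p0) = f (shm G (-1) p0) := by
      intro m
      induction m with
      | zero => simp
      | succ m ih =>
        rw [← ih, hstep (-1 - m) (by omega)]
        have e : (-1 : ℤ) - ((m + 1 : ℕ) : ℤ) = -1 - m - 1 := by push_cast; ring
        rw [e]
    obtain ⟨N, hN⟩ := unif hf
    obtain ⟨R, hR⟩ := rec_point G 1 1 1 1 1 1 N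
    obtain ⟨p, hp1, hp2, hp3⟩ := hR (-R - 1)
    have h1 : f (shm G p p0) = f p0 := hN _ _ hp3
    have h2 : f (shm G (-1) p0) = f p0 := by
      have e : (-1 : ℤ) - ((-1 - p).toNat : ℤ) = p := by omega
      rw [← h1, ← hneg (-1 - p).toNat, e]
    have hall : ∀ m : ℤ, f (shm G m p0) = f p0 := by
      intro m
      rcases lt_or_ge m 0 with hm | hm
      · have := hneg (-1 - m).toNat
        have e : (-1 : ℤ) - ((-1 - m).toNat : ℤ) = m := by omega
        rw [h2, e] at this
        exact this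
      · have := hpos m.toNat
        have e : (m.toNat : ℤ) = m := by omega
        rw [shm_zero, e] at this
        exact this
    refine ⟨f p0, fun x => ?_⟩
    obtain ⟨m, hm⟩ := exists_shm_near x N
    have h3 : f x = f p0 := (hN _ _ hm).trans (hall m)
    rw [← h3]
    simp [f]
  choose c hc' using key
  exact ⟨c, fun x => funext fun i => hc' i x⟩

theorem cond_of (h : X G ≃ₜ X G') (hz : ∀ x, (h x).1.1 = x.1.1) (c : K)
    (hκ : ∀ x, (h x).1.2.1 0 = c * x.1.2.1 0) : Cond G G' c := by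
  intro i' j'
  have hf : Continuous fun x : X G => (h x).1.2.2 0 i' j' :=
    (continuous_δ 0 i' j').comp (continuous_subtype_val.comp h.continuous)
  obtain ⟨N, hN⟩ := unif hf
  refine ⟨N, fun n hn n' hn' σ hσ σ' hσ' hF => ?_⟩
  have key : ∀ n ≥ N, ∀ σ (hσ : σ ∈ Gam n), ∃ x : X G,
      Near N x.1 (P G 1 (Function.update 1 n ⟨σ, hσ⟩) σ) ∧
        (h x).1.2.2 0 i' j' = F G' ((c n : Equiv.Perm ℕ) * σ) i' j' := by
    intro n hn σ hσ
    obtain ⟨p, -, -, h1, h2, h3, h4⟩ := rec_level G 1 (Function.update 1 n ⟨σ, hσ⟩) 1 1 1 hn 0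
    refine ⟨shm G p (pt G 1 1 1), ?_, ?_⟩
    · rw [Function.update_self] at h1
      exact h1
    · have hz1 : (h (shm G p (pt G 1 1 1))).1.1 n + ((0 : ℤ) : ZMod (M n)) = 0 := by
        rw [hz]
        show ((0 : ZMod (M n)) + (p : ZMod (M n))) + ((0 : ℤ) : ZMod (M n)) = 0
        rw [zero_add, Int.cast_zero, add_zero, ZMod.intCast_zmod_eq_zero_iff_dvd]
        exact h3
      have hz2 : (h (shm G p (pt G 1 1 1))).1.1 (n + 1) + ((0 : ℤ) : ZMod (M (n + 1))) ≠ 0 := by
        rw [hz]
        show ((0 : ZMod (M (n + 1))) + (p : ZMod (M (n + 1)))) + ((0 : ℤ) : ZMod (M (n + 1))) ≠ 0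
        rw [zero_add, Int.cast_zero, add_zero, Ne, ZMod.intCast_zmod_eq_zero_iff_dvd]
        exact h4
      rw [X_display (h (shm G p (pt G 1 1 1))).2 n 0 hz1 hz2, hκ]
      have h5 : (shm G p (pt G 1 1 1)).1.2.1 0 n = (⟨σ, hσ⟩ : Gam n) := by
        show st 1 1 (0 + p) n = _
        rw [zero_add, h2 n le_rfl, Function.update_self]
      rw [Pi.mul_apply, h5]
      rfl
  obtain ⟨x, hx1, hx2⟩ := key n hn σ hσ
  obtain ⟨x', hx1', hx2'⟩ := key n' hn' σ' hσ'
  rw [← hx2, ← hx2']
  apply hN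
  refine hx1.trans (Near.trans ?_ hx1'.symm)
  refine ⟨fun _ _ => rfl, fun t ht i hi => ?_, fun t ht i hi j hj => ?_⟩
  · show st _ _ t i = st _ _ t i
    unfold st
    by_cases h0 : t < 0
    · simp [h0]
    · simp [h0, Function.update_of_ne (show i ≠ n by omega),
        Function.update_of_ne (show i ≠ n' by omega)]
  · show (if t = 0 then F G σ else F G (st _ _ t (lev t))) i j =
      (if t = 0 then F G σ' else F G (st _ _ t (lev t))) i j
    by_cases h0 : t = 0
    · rw [if_pos h0, if_pos h0]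
      exact hF i hi j hj
    · rw [if_neg h0, if_neg h0]
      have hN : (N : ℤ) < M N := by exact_mod_cast lt_M N
      have hl := (lev_add (L := N) (p := 0) h0 (by rw [abs_lt]; omega) (dvd_zero _)).2
      have e : st 1 (Function.update 1 n ⟨σ, hσ⟩) t (lev t) =
          st 1 (Function.update 1 n' ⟨σ', hσ'⟩) t (lev t) := by
        unfold st
        by_cases h0 : t < 0
        · simp [h0]
        · simp [h0, Function.update_of_ne (show lev t ≠ n by omega),
            Function.update_of_ne (show lev t ≠ n' by omega)]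
      rw [e]

/-- Conjugate systems come from isomorphic graphs. -/
theorem iso_of_sysConj (hs : ∀ i j, G i j = G j i) (hi : ∀ i, G i i = false)
    (hs' : ∀ i j, G' i j = G' j i) (hi' : ∀ i, G' i i = false) (h : SysConj G G') :
    ∃ g : Equiv.Perm ℕ, ∀ i j, G i j = G' (g i) (g j) := by
  obtain ⟨h0, hc0⟩ := h
  obtain ⟨h, hc, hz⟩ := exists_normalised h0 hc0
  obtain ⟨c, hκ⟩ := exists_trans h hc hz
  refine iso_of_cond hs hi hs' hi' (cond_of h hz c hκ) (cond_of h.symm ?_ c⁻¹ ?_)
  · intro x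
    have := hz (h.symm x)
    rw [h.apply_symm_apply] at this
    exact this.symm
  · intro x
    have := hκ (h.symm x)
    rw [h.apply_symm_apply] at this
    rw [this, inv_mul_cancel_left]

end

end Pool.Agent.R806.MC
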