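import Pool.Agent.R806.MC.Main

/-!
# Conjugacy of homeomorphisms of the Cantor space reduces to graph isomorphism
-/

open Set Filter Topology MeasureTheory

namespace Pool.Agent.R806.MC

/-- nonempty proper clopen sets -/
abbrev Dd : Type := {A : Set Cantor // IsClopen A ∧ A.Nonempty ∧ (Aᶜ).Nonempty}

instance : Countable Dd := by
  have h : Countable (TopologicalSpace.Clopens Cantor) := by
    rw [TopologicalSpace.Clopens.countable_iff_secondCountable]
    infer_instance
  let f : Dd → TopologicalSpace.Clopens Cantor := fun A => ⟨A.1, A.2.1⟩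
  have hf : Function.Injective f := by
    intro A B hAB
    have := congrArg (fun C : TopologicalSpace.Clopens Cantor => (C : Set Cantor)) hAB
    exact Subtype.ext this
  exact hf.countable

/-- the cylinder `x n = b` -/
def cyl (n : ℕ) (b : Bool) : Dd := ⟨(fun x : Cantor => x n) ⁻¹' {b},
  (isClopen_discrete {b}).preimage (continuous_apply (A := fun _ : ℕ => Bool) n),
    ⟨fun _ => b, by simp⟩, ⟨fun _ => !b, by simp⟩⟩

theorem mem_cyl {n : ℕ} {b : Bool} {x : Cantor} : x ∈ (cyl n b).1 ↔ x n = b := by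
  simp [cyl]

instance : Infinite Dd := by
  refine Infinite.of_injective (fun n => cyl n true) ?_
  intro m n h
  by_contra hne
  have h1 : (Function.update (fun _ => false) m true : Cantor) ∈ (cyl m true).1 := by
    rw [mem_cyl]; simp
  have h2 : (Function.update (fun _ => false) m true : Cantor) ∈ (cyl n true).1 := by
    have := congrArg Subtype.val h
    rw [← this]; exact h1
  rw [mem_cyl, Function.update_of_ne (Ne.symm hne)] at h2
  exact absurd h2 (by simp)

/-- complement -/
def cD (A : Dd) : Dd := ⟨A.1ᶜ, A.2.1.compl, A.2.2.2, by rw [compl_compl]; exact A.2.2.1⟩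

theorem exists_sep {p q : Cantor} (h : p ≠ q) : ∃ A : Dd, p ∈ A.1 ∧ q ∉ A.1 := by
  have h1 : ∃ n, p n ≠ q n := by
    by_contra hc
    push Not at hc
    exact h (funext hc)
  obtain ⟨n, hn⟩ := h1
  exact ⟨cyl n (p n), mem_cyl.2 rfl, fun e => hn (mem_cyl.1 e).symm⟩

theorem eq_of_mem {p q : Cantor} (h : ∀ A : Dd, p ∈ A.1 → q ∈ A.1) : p = q := by
  by_contra hne
  obtain ⟨A, h1, h2⟩ := exists_sep hne
  exact h2 (h A h1)

theorem sub_iff (A B : Dd) : A.1 ⊆ B.1 ↔ ∀ C : Dd, Disjoint C.1 B.1 → Disjoint C.1 A.1 := by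
  constructor
  · intro h C hC
    exact hC.mono_right h
  · intro h
    by_contra hc
    rw [not_subset] at hc
    obtain ⟨x, hx1, hx2⟩ := hc
    let C : Dd := ⟨A.1 \ B.1, A.2.1.diff B.2.1, ⟨x, hx1, hx2⟩, by
      obtain ⟨y, hy⟩ := B.2.2.1
      exact ⟨y, fun hy' => hy'.2 hy⟩⟩
    have h1 := h C disjoint_sdiff_left
    rw [disjoint_left] at h1
    exact h1 (show x ∈ A.1 \ B.1 from ⟨hx1, hx2⟩) hx1

/-- Stone duality for bijections preserving disjointness. -/
theorem stone (f : Dd ≃ Dd) (hf : ∀ A B, Disjoint (f A).1 (f B).1 ↔ Disjoint A.1 B.1) :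
    ∃ h : Cantor ≃ₜ Cantor, ∀ A : Dd, ∀ p, h p ∈ (f A).1 ↔ p ∈ A.1 := by
  have key : ∀ (f : Dd ≃ Dd), (∀ A B, Disjoint (f A).1 (f B).1 ↔ Disjoint A.1 B.1) →
      ∃ h : Cantor → Cantor, ∀ A : Dd, ∀ p, h p ∈ (f A).1 ↔ p ∈ A.1 := by
    intro f hf
    have hsub : ∀ A B : Dd, A.1 ⊆ B.1 → (f A).1 ⊆ (f B).1 := by
      intro A B h
      rw [sub_iff] at h ⊢
      intro C hC
      rw [← f.apply_symm_apply C, hf] at hC ⊢
      exact h _ hC
    have hcompl : ∀ A : Dd, (f (cD A)).1 = (f A).1ᶜ := by
      intro A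
      apply subset_antisymm
      · rw [← disjoint_compl_right_iff_subset, compl_compl, hf]
        exact disjoint_compl_left
      · have h1 : (cD (f A)).1 ⊆ (f (cD A)).1 := by
          rw [← f.apply_symm_apply (cD (f A))]
          apply hsub
          show (f.symm (cD (f A))).1 ⊆ A.1ᶜ
          rw [subset_compl_iff_disjoint_right, ← hf, f.apply_symm_apply]
          exact disjoint_compl_left
        exact h1
    have hex : ∀ p : Cantor, ∃ q : Cantor, ∀ A : Dd, p ∈ A.1 → q ∈ (f A).1 := by
      intro p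
      have hne : Nonempty {A : Dd // p ∈ A.1} := ⟨⟨cyl 0 (p 0), mem_cyl.2 rfl⟩⟩
      have h1 := IsCompact.nonempty_iInter_of_directed_nonempty_isCompact_isClosed
        (fun A : {A : Dd // p ∈ A.1} => (f A.1).1) (by
          intro A B
          let C : Dd := ⟨A.1.1 ∩ B.1.1, A.1.2.1.inter B.1.2.1, ⟨p, A.2, B.2⟩, by
            obtain ⟨y, hy⟩ := A.1.2.2.2
            exact ⟨y, fun hy' => hy hy'.1⟩⟩
          exact ⟨⟨C, ⟨A.2, B.2⟩⟩, hsub C A.1 inter_subset_left, hsub C B.1 inter_subset_right⟩)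
        (fun A => (f A.1).2.2.1) (fun A => (f A.1).2.1.isClosed.isCompact)
        (fun A => (f A.1).2.1.isClosed)
      obtain ⟨q, hq⟩ := h1
      rw [mem_iInter] at hq
      exact ⟨q, fun A hA => hq ⟨A, hA⟩⟩
    choose h hh using hex
    refine ⟨h, fun A p => ⟨fun h1 => ?_, hh p A⟩⟩
    by_contra h2
    have h3 := hh p (cD A) h2
    rw [hcompl] at h3
    exact h3 h1
  obtain ⟨h, hh⟩ := key f hf
  obtain ⟨h', hh'⟩ := key f.symm (by
    intro A B
    rw [← hf, f.apply_symm_apply, f.apply_symm_apply])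
  have hcont : ∀ (f : Dd ≃ Dd) (h : Cantor → Cantor), (∀ A : Dd, ∀ p, h p ∈ (f A).1 ↔ p ∈ A.1) →
      Continuous h := by
    intro f h hh
    rw [(isTopologicalBasis_isClopen (X := Cantor)).continuous_iff]
    intro U hU
    have hU' : IsClopen U := hU
    by_cases h1 : U.Nonempty
    · by_cases h2 : (Uᶜ).Nonempty
      · have h3 := hh (f.symm ⟨U, hU', h1, h2⟩)
        rw [f.apply_symm_apply] at h3
        have h4 : h ⁻¹' U = (f.symm ⟨U, hU', h1, h2⟩).1 := by
          ext p; exact h3 p
        rw [h4]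
        exact (f.symm ⟨U, hU', h1, h2⟩).2.1.isOpen
      · rw [not_nonempty_iff_eq_empty, compl_empty_iff] at h2
        rw [h2, preimage_univ]; exact isOpen_univ
    · rw [not_nonempty_iff_eq_empty] at h1
      rw [h1, preimage_empty]; exact isOpen_empty
  refine ⟨{ toFun := h, invFun := h', left_inv := ?_, right_inv := ?_,
            continuous_toFun := hcont f h hh, continuous_invFun := hcont f.symm h' hh' }, hh⟩
  · intro p
    symm
    apply eq_of_mem
    intro A hA
    have := (hh' (f A) (h p)).2 ((hh A p).2 hA)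
    rwa [f.symm_apply_apply] at this
  · intro p
    symm
    apply eq_of_mem
    intro A hA
    have := (hh (f.symm A) (h' p)).2 ((hh' A p).2 hA)
    rwa [f.apply_symm_apply] at this

/-- image of a clopen set -/
def im (T : Cantor ≃ₜ Cantor) : Dd ≃ Dd where
  toFun A := ⟨T '' A.1, ⟨T.isClosed_image.2 A.2.1.1, T.isOpen_image.2 A.2.1.2⟩, A.2.2.1.image T, by
    rw [← image_compl_eq T.bijective]; exact A.2.2.2.image T⟩
  invFun A := ⟨T.symm '' A.1, ⟨T.symm.isClosed_image.2 A.2.1.1, T.symm.isOpen_image.2 A.2.1.2⟩, A.2.2.1.image T.symm, by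
    rw [← image_compl_eq T.symm.bijective]; exact A.2.2.2.image T.symm⟩
  left_inv A := Subtype.ext (by
    show T.symm '' (T '' A.1) = A.1
    rw [← image_comp]; simp)
  right_inv A := Subtype.ext (by
    show T '' (T.symm '' A.1) = A.1
    rw [← image_comp]; simp)

theorem im_val (T : Cantor ≃ₜ Cantor) (A : Dd) : (im T A).1 = T '' A.1 := rfl

theorem mem_im (T : Cantor ≃ₜ Cantor) (A : Dd) (p : Cantor) : T p ∈ (im T A).1 ↔ p ∈ A.1 := by
  rw [im_val]
  exact T.injective.mem_set_image

/-- vertices of the coding graph -/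
inductive Vt : Type
  | d (A : Dd)
  | x (A : Dd)
  | y (A : Dd)
  | l (A : Dd)

open Vt

instance : Countable Vt := by
  let f : Vt → Dd × Fin 4 := fun v => match v with
    | d A => (A, 0)
    | x A => (A, 1)
    | y A => (A, 2)
    | l A => (A, 3)
  refine Function.Injective.countable (f := f) ?_
  intro u v h
  cases u <;> cases v <;> simp_all [f]

instance : Infinite Vt := Infinite.of_injective Vt.d (fun _ _ h => Vt.d.inj h)

/-- adjacency of the coding graph -/
def rel (T : Cantor ≃ₜ Cantor) : Vt → Vt → Prop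
  | d A, d B => Disjoint A.1 B.1
  | d A, x B => A = B
  | x A, d B => A = B
  | x A, y B => A = B
  | y A, x B => A = B
  | x A, l B => A = B
  | l A, x B => A = B
  | y A, d B => B = im T A
  | d B, y A => B = im T A
  | _, _ => False

/-- the coding graph of a homeomorphism -/
def gr (T : Cantor ≃ₜ Cantor) : SimpleGraph Vt where
  Adj := rel T
  symm := by
    constructor
    intro u v h
    cases u <;> cases v <;> simp_all [rel, disjoint_comm]
  loopless := by
    constructor
    intro u h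
    cases u with
    | d A =>
      have h1 : Disjoint A.1 A.1 := h
      rw [disjoint_self] at h1
      obtain ⟨y, hy⟩ := A.2.2.1
      rw [h1] at hy
      exact hy
    | _ => exact h

/-- at most one neighbour -/
def Leaf {V : Type*} (G : SimpleGraph V) (v : V) : Prop :=
  ∀ u u', G.Adj v u → G.Adj v u' → u = u'

/-- at most two neighbours -/
def Two {V : Type*} (G : SimpleGraph V) (v : V) : Prop :=
  ∀ u u' u'', G.Adj v u → G.Adj v u' → G.Adj v u'' → u = u' ∨ u = u'' ∨ u' = u''

theorem leaf_iso {V V' : Type*} {G : SimpleGraph V} {G' : SimpleGraph V'} (F : G ≃g G') (v : V) :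
    Leaf G' (F v) ↔ Leaf G v := by
  constructor
  · intro h u u' h1 h2
    exact F.injective (h _ _ (F.map_adj_iff.2 h1) (F.map_adj_iff.2 h2))
  · intro h u u' h1 h2
    obtain ⟨w, rfl⟩ := F.surjective u
    obtain ⟨w', rfl⟩ := F.surjective u'
    rw [h _ _ (F.map_adj_iff.1 h1) (F.map_adj_iff.1 h2)]

theorem two_iso {V V' : Type*} {G : SimpleGraph V} {G' : SimpleGraph V'} (F : G ≃g G') (v : V) :
    Two G' (F v) ↔ Two G v := by
  constructor
  · intro h u u' u'' h1 h2 h3
    rcases h _ _ _ (F.map_adj_iff.2 h1) (F.map_adj_iff.2 h2) (F.map_adj_iff.2 h3) with e | e | e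
    · exact Or.inl (F.injective e)
    · exact Or.inr (Or.inl (F.injective e))
    · exact Or.inr (Or.inr (F.injective e))
  · intro h u u' u'' h1 h2 h3
    obtain ⟨w, rfl⟩ := F.surjective u
    obtain ⟨w', rfl⟩ := F.surjective u'
    obtain ⟨w'', rfl⟩ := F.surjective u''
    rcases h _ _ _ (F.map_adj_iff.1 h1) (F.map_adj_iff.1 h2) (F.map_adj_iff.1 h3) with e | e | e
    · exact Or.inl (by rw [e])
    · exact Or.inr (Or.inl (by rw [e]))
    · exact Or.inr (Or.inr (by rw [e]))

theorem cD_ne (A : Dd) : cD A ≠ A := by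
  intro h
  obtain ⟨p, hp⟩ := A.2.2.1
  have : p ∈ (cD A).1 := by rw [h]; exact hp
  exact this hp

section

variable (T : Cantor ≃ₜ Cantor)

theorem leaf_l (A : Dd) : Leaf (gr T) (l A) := by
  intro u u' h h'
  cases u <;> cases u' <;> simp_all [gr, rel]

theorem not_two_d (A : Dd) : ¬ Two (gr T) (d A) := by
  intro h
  have := h (x A) (y ((im T).symm A)) (d (cD A)) (show A = A from rfl)
    (show A = im T ((im T).symm A) by simp) (show Disjoint A.1 A.1ᶜ from disjoint_compl_right)
  simp at this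

theorem not_two_x (A : Dd) : ¬ Two (gr T) (x A) := by
  intro h
  have := h (d A) (y A) (l A) (show A = A from rfl) (show A = A from rfl) (show A = A from rfl)
  simp at this

theorem not_leaf_y (A : Dd) : ¬ Leaf (gr T) (y A) := by
  intro h
  have := h (x A) (d (im T A)) (show A = A from rfl) (show im T A = im T A from rfl)
  simp at this

theorem two_y (A : Dd) : Two (gr T) (y A) := by
  intro u u' u'' h h' h''
  cases u <;> cases u' <;> cases u'' <;> simp_all [gr, rel]

theorem Leaf.two {V : Type*} {G : SimpleGraph V} {v : V} (h : Leaf G v) : Two G v :=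
  fun u u' _ h1 h2 _ => Or.inl (h u u' h1 h2)

theorem leaf_iff (v : Vt) : Leaf (gr T) v ↔ ∃ A, v = l A := by
  constructor
  · intro h
    cases v with
    | d A => exact absurd h.two (not_two_d T A)
    | x A => exact absurd h.two (not_two_x T A)
    | y A => exact absurd h (not_leaf_y T A)
    | l A => exact ⟨A, rfl⟩
  · rintro ⟨A, rfl⟩; exact leaf_l T A

theorem y_iff (v : Vt) : (Two (gr T) v ∧ ¬ Leaf (gr T) v) ↔ ∃ A, v = y A := by
  constructor
  · rintro ⟨h, h'⟩
    cases v with
    | d A => exact absurd h (not_two_d T A)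
    | x A => exact absurd h (not_two_x T A)
    | y A => exact ⟨A, rfl⟩
    | l A => exact absurd (leaf_l T A) h'
  · rintro ⟨A, rfl⟩; exact ⟨two_y T A, not_leaf_y T A⟩

theorem x_iff (v : Vt) : (∃ u, (gr T).Adj v u ∧ Leaf (gr T) u) ↔ ∃ A, v = x A := by
  constructor
  · rintro ⟨u, h, h'⟩
    rw [leaf_iff] at h'
    obtain ⟨B, rfl⟩ := h'
    cases v with
    | x A => exact ⟨A, rfl⟩
    | _ => exact absurd h (by simp [gr, rel])
  · rintro ⟨A, rfl⟩
    exact ⟨l A, rfl, leaf_l T A⟩

end

section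

variable {S T : Cantor ≃ₜ Cantor} (F : gr S ≃g gr T)

theorem F_l (A : Dd) : ∃ B, F (l A) = l B := by
  rw [← leaf_iff T, leaf_iso]; exact leaf_l S A

theorem F_y (A : Dd) : ∃ B, F (y A) = y B := by
  rw [← y_iff T, leaf_iso, two_iso]; exact ⟨two_y S A, not_leaf_y S A⟩

theorem F_x (A : Dd) : ∃ B, F (x A) = x B := by
  rw [← x_iff T]
  exact ⟨F (l A), F.map_adj_iff.2 (show A = A from rfl), (leaf_iso F _).2 (leaf_l S A)⟩

theorem F_d (A : Dd) : ∃ B, F (d A) = d B := by
  have h1 : ¬ ∃ B, F (d A) = l B := by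
    rw [← leaf_iff T, leaf_iso]; exact fun h => not_two_d S A h.two
  have h2 : ¬ ∃ B, F (d A) = y B := by
    rw [← y_iff T, two_iso]; exact fun h => not_two_d S A h.1
  have h3 : ¬ ∃ B, F (d A) = x B := by
    rintro ⟨B, hB⟩
    obtain ⟨C, hC⟩ := F_x F.symm B
    have : F.symm (F (d A)) = F.symm (x B) := by rw [hB]
    rw [hC, F.symm_apply_apply] at this
    exact absurd this (by simp)
  cases h : F (d A) with
  | d B => exact ⟨B, rfl⟩
  | x B => exact absurd ⟨B, h⟩ h3
  | y B => exact absurd ⟨B, h⟩ h2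
  | l B => exact absurd ⟨B, h⟩ h1

/-- the induced map on clopen sets -/
noncomputable def ind (A : Dd) : Dd := (F_d F A).choose

theorem ind_spec (A : Dd) : F (d A) = d (ind F A) := (F_d F A).choose_spec

theorem ind_inv (A : Dd) : ind F.symm (ind F A) = A := by
  have h1 := ind_spec F A
  have h2 := ind_spec F.symm (ind F A)
  rw [← h1, F.symm_apply_apply] at h2
  exact (Vt.d.inj h2).symm

/-- the induced bijection -/
noncomputable def indE : Dd ≃ Dd where
  toFun := ind F
  invFun := ind F.symm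
  left_inv := ind_inv F
  right_inv A := ind_inv F.symm A

theorem F_x_eq (A : Dd) : F (x A) = x (ind F A) := by
  obtain ⟨B, hB⟩ := F_x F A
  have h1 : (gr T).Adj (F (d A)) (F (x A)) := F.map_adj_iff.2 (show A = A from rfl)
  rw [hB, ind_spec] at h1
  have h2 : ind F A = B := h1
  rw [hB, h2]

theorem F_y_eq (A : Dd) : F (y A) = y (ind F A) := by
  obtain ⟨B, hB⟩ := F_y F A
  have h1 : (gr T).Adj (F (x A)) (F (y A)) := F.map_adj_iff.2 (show A = A from rfl)
  rw [hB, F_x_eq] at h1
  have h2 : ind F A = B := h1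
  rw [hB, h2]

theorem ind_im (A : Dd) : ind F (im S A) = im T (ind F A) := by
  have h1 : (gr T).Adj (F (y A)) (F (d (im S A))) :=
    F.map_adj_iff.2 (show im S A = im S A from rfl)
  rw [F_y_eq, ind_spec] at h1
  exact h1

theorem ind_disj (A B : Dd) : Disjoint (ind F A).1 (ind F B).1 ↔ Disjoint A.1 B.1 := by
  have h1 : (gr T).Adj (F (d A)) (F (d B)) ↔ (gr S).Adj (d A) (d B) := F.map_adj_iff
  rw [ind_spec, ind_spec] at h1
  exact h1

end

theorem conj_of_iso {S T : Cantor ≃ₜ Cantor} (F : gr S ≃g gr T) : TopConj S T := by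
  obtain ⟨h, hh⟩ := stone (indE F) (ind_disj F)
  have hh' : ∀ A : Dd, ∀ p, h p ∈ (ind F A).1 ↔ p ∈ A.1 := hh
  have key : ∀ p, h (S p) = T (h p) := by
    intro p
    apply eq_of_mem
    intro A hA
    obtain ⟨B, hB⟩ : ∃ B, A = ind F (im S B) :=
      ⟨(im S).symm (ind F.symm A), by rw [Equiv.apply_symm_apply]; exact (ind_inv F.symm A).symm⟩
    rw [hB, hh', mem_im] at hA
    rw [hB, ind_im, mem_im, hh']
    exact hA
  refine ⟨h⁻¹, ?_⟩
  ext1 p
  show S p = h.symm (T (h⁻¹⁻¹ p))
  rw [inv_inv, ← key, Homeomorph.symm_apply_apply]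

/-- a conjugacy induces an isomorphism of coding graphs -/
theorem iso_of_conj {S T : Cantor ≃ₜ Cantor} (hST : TopConj S T) : Nonempty (gr S ≃g gr T) := by
  obtain ⟨h, hh⟩ := hST
  have key : ∀ A : Dd, im h.symm (im S A) = im T (im h.symm A) := by
    intro A
    apply Subtype.ext
    show h.symm '' (S '' A.1) = T '' (h.symm '' A.1)
    rw [← image_comp, ← image_comp]
    congr 1
    funext p
    show h.symm (S p) = T (h.symm p)
    rw [hh]
    show h.symm (h (T (h.symm p))) = _
    rw [Homeomorph.symm_apply_apply]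
  let e : Dd ≃ Dd := im h.symm
  have hdisj : ∀ A B : Dd, Disjoint (e A).1 (e B).1 ↔ Disjoint A.1 B.1 := by
    intro A B
    show Disjoint (h.symm '' A.1) (h.symm '' B.1) ↔ _
    exact disjoint_image_iff h.symm.injective
  let E : Vt ≃ Vt :=
    { toFun := fun v => match v with
        | d A => d (e A)
        | x A => x (e A)
        | y A => y (e A)
        | l A => l (e A)
      invFun := fun v => match v with
        | d A => d (e.symm A)
        | x A => x (e.symm A)
        | y A => y (e.symm A)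
        | l A => l (e.symm A)
      left_inv := fun v => by cases v <;> simp
      right_inv := fun v => by cases v <;> simp }
  refine ⟨⟨E, ?_⟩⟩
  intro u v
  show rel T (E u) (E v) ↔ rel S u v
  cases u <;> cases v <;> simp only [E, rel, Equiv.coe_fn_mk, EmbeddingLike.apply_eq_iff_eq]
  · exact hdisj _ _
  · rename_i A B
    rw [← key B]
    exact e.apply_eq_iff_eq
  · rename_i A B
    rw [← key A]
    exact e.apply_eq_iff_eq

/-- enumeration of the vertices -/
noncomputable def ev : ℕ ≃ Vt := (nonempty_equiv_of_countable (α := ℕ) (β := Vt)).some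

/-- the coding graph on `ℕ` -/
noncomputable def code (T : Cantor ≃ₜ Cantor) : SimpleGraph ℕ := (gr T).comap ev

theorem code_iso (T : Cantor ≃ₜ Cantor) : Nonempty (code T ≃g gr T) :=
  ⟨⟨ev, Iff.rfl⟩⟩

theorem code_iff (S T : Cantor ≃ₜ Cantor) : TopConj S T ↔ Nonempty (code S ≃g code T) := by
  obtain ⟨a⟩ := code_iso S
  obtain ⟨b⟩ := code_iso T
  constructor
  · intro h
    obtain ⟨c⟩ := iso_of_conj h
    exact ⟨a.trans (c.trans b.symm)⟩
  · rintro ⟨c⟩
    exact conj_of_iso (a.symm.trans (c.trans b))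

theorem isOpen_im (A B : Dd) : IsOpen {T : Cantor ≃ₜ Cantor | B = im T A} := by
  have hc : Continuous fun T : Cantor ≃ₜ Cantor => (⟨T, T.continuous⟩ : C(Cantor, Cantor)) :=
    continuous_induced_dom
  have e : {T : Cantor ≃ₜ Cantor | B = im T A} =
      (fun T : Cantor ≃ₜ Cantor => (⟨T, T.continuous⟩ : C(Cantor, Cantor))) ⁻¹'
        ({f | MapsTo f A.1 B.1} ∩ {f | MapsTo f A.1ᶜ B.1ᶜ}) := by
    ext T
    constructor
    · intro h
      have h : B = im T A := h
      subst h
      refine ⟨fun p hp => ?_, fun p hp => ?_⟩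
      · exact (mem_im T A p).2 hp
      · exact fun h => hp ((mem_im T A p).1 h)
    · rintro ⟨h1, h2⟩
      apply Subtype.ext
      apply subset_antisymm
      · intro q hq
        obtain ⟨p, rfl⟩ := T.surjective q
        rw [mem_im]
        by_contra hc
        exact h2 hc hq
      · rintro _ ⟨p, hp, rfl⟩
        exact h1 hp
  rw [e]
  refine IsOpen.preimage hc (IsOpen.inter ?_ ?_)
  · exact ContinuousMap.isOpen_setOfPred_mapsTo A.2.1.isClosed.isCompact B.2.1.isOpen
  · exact ContinuousMap.isOpen_setOfPred_mapsTo A.2.1.compl.isClosed.isCompact B.2.1.compl.isOpen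

theorem measurable_code : Measurable code := by
  have _ : BorelSpace (Cantor ≃ₜ Cantor) := ⟨rfl⟩
  rw [SimpleGraph.measurable_iff_adj]
  intro u v
  show Measurable fun T : Cantor ≃ₜ Cantor => rel T (ev u) (ev v)
  generalize ev u = a
  generalize ev v = b
  cases a <;> cases b <;> simp only [rel] <;> try exact measurable_const
  · exact measurableSet_setOfPred.1 (isOpen_im _ _).measurableSet
  · exact measurableSet_setOfPred.1 (isOpen_im _ _).measurableSet

/-! ### The two bi-reducibility statements -/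

theorem transitive_of_minimal {T : Cantor ≃ₜ Cantor} (h : IsMinimal T) : IsTransitive T := by
  intro U V hU hV hUn hVn
  obtain ⟨x, hx⟩ := hUn
  obtain ⟨_, h1, ⟨n, rfl⟩⟩ := (h x).inter_open_nonempty V hV hVn
  exact ⟨n, (T ^ n) x, ⟨x, hx, rfl⟩, h1⟩

theorem bireducible_class (C : (Cantor ≃ₜ Cantor) → Prop) (hC : ∀ T, IsMinimal T → C T) :
    BiRed GraphIso (fun S T : {T : Cantor ≃ₜ Cantor // C T} => TopConj S.1 T.1) := by
  constructor
  · obtain ⟨Θ, h1, h2, h3⟩ := exists_reduction
    exact ⟨fun G => ⟨Θ G, hC _ (h2 G)⟩, h1.subtype_mk, fun G G' => h3 G G'⟩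
  · exact ⟨fun T => code T.1, measurable_code.comp measurable_subtype_coe,
      fun S T => code_iff S.1 T.1⟩

end Pool.Agent.R806.MC
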