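import Mathlib

/-!
# Definitions used in the statements

`Cantor` is `2^ℕ`; its homeomorphisms carry the topology of uniform convergence (the topology
induced by the compact-open topology of the continuous self-maps of the compact space `Cantor`) and
the Borel sets of this topology.  The graphs on the vertex set `ℕ` carry Mathlib's sigma-algebra
(generated by the sets `{G | G.Adj i j}`), which consists of the Borel sets of the space of graphs.
-/

open Set

namespace Pool.Agent.R806.MC

/-- the Cantor space `2^ℕ` -/
abbrev Cantor : Type := ℕ → Bool

/-- The topology of uniform convergence on the group of homeomorphisms of the Cantor space: it is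
induced by the compact-open topology on the continuous self-maps of the (compact) Cantor space. -/
instance homeoTop : TopologicalSpace (Cantor ≃ₜ Cantor) :=
  TopologicalSpace.induced (fun h => (⟨h, h.continuous⟩ : C(Cantor, Cantor))) inferInstance

/-- the Borel sets of the group of homeomorphisms of the Cantor space -/
instance homeoBorel : MeasurableSpace (Cantor ≃ₜ Cantor) := borel (Cantor ≃ₜ Cantor)

/-- A homeomorphism is minimal if every orbit is dense. -/
def IsMinimal (T : Cantor ≃ₜ Cantor) : Prop := ∀ x, Dense (range fun n : ℤ => (T ^ n) x)

/-- A homeomorphism is topologically transitive if for all nonempty open sets `U`, `V` some power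
maps a point of `U` into `V`. -/
def IsTransitive (T : Cantor ≃ₜ Cantor) : Prop :=
  ∀ U V : Set Cantor, IsOpen U → IsOpen V → U.Nonempty → V.Nonempty →
    ∃ n : ℤ, (((T ^ n) '' U) ∩ V).Nonempty

/-- topological conjugacy of two homeomorphisms of the Cantor space -/
def TopConj (S T : Cantor ≃ₜ Cantor) : Prop := ∃ h : Cantor ≃ₜ Cantor, S = h * T * h⁻¹

/-- `E` is Borel reducible to `F`. -/
def BorelRed {X Y : Type} [MeasurableSpace X] [MeasurableSpace Y] (E : X → X → Prop)
    (F : Y → Y → Prop) : Prop :=
  ∃ f : X → Y, Measurable f ∧ ∀ x x', E x x' ↔ F (f x) (f x')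

/-- `E` and `F` are Borel bi-reducible. -/
def BiRed {X Y : Type} [MeasurableSpace X] [MeasurableSpace Y] (E : X → X → Prop)
    (F : Y → Y → Prop) : Prop :=
  BorelRed E F ∧ BorelRed F E

/-- isomorphism of graphs on the vertex set `ℕ` -/
def GraphIso (G G' : SimpleGraph ℕ) : Prop := Nonempty (G ≃g G')

end Pool.Agent.R806.MC
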