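import Pool.Agent.R806.MC.Sys

/-!
# Isomorphic graphs give conjugate systems
-/

open Set Filter Topology

namespace Pool.Agent.R806.MC

/-- the homeomorphism of `X G` -/
noncomputable def shX (G : ℕ → ℕ → Bool) : X G ≃ₜ X G where
  toFun x := ⟨sh 1 x.1, sh_mem_X 1 x.2⟩
  invFun x := ⟨sh (-1) x.1, sh_mem_X (-1) x.2⟩
  left_inv x := Subtype.ext (by show sh (-1) (sh 1 x.1) = x.1; rw [sh_sh]; exact sh_zero _)
  right_inv x := Subtype.ext (by show sh 1 (sh (-1) x.1) = x.1; rw [sh_sh]; exact sh_zero _)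
  continuous_toFun := ((continuous_sh 1).comp continuous_subtype_val).subtype_mk _
  continuous_invFun := ((continuous_sh (-1)).comp continuous_subtype_val).subtype_mk _

theorem shX_val (G : ℕ → ℕ → Bool) (x : X G) : (shX G x : Amb) = sh 1 x.1 := rfl

/-- topological conjugacy of the systems attached to two graphs -/
def SysConj (G G' : ℕ → ℕ → Bool) : Prop :=
  ∃ h : X G ≃ₜ X G', ∀ x, h (shX G x) = shX G' (h x)

theorem exists_c (g : Equiv.Perm ℕ) : ∃ (c : K) (n0 : ℕ → ℕ), ∀ i n, n0 i ≤ n →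
    (c n : Equiv.Perm ℕ) i = g i := by
  choose L0 ρ h1 h2 using approx_perm g
  refine ⟨fun n => if h : L0 (Nat.findGreatest (fun N => L0 N ≤ n) n) ≤ n then
    ⟨ρ (Nat.findGreatest (fun N => L0 N ≤ n) n), h1 _ n h⟩ else 1,
    fun i => L0 (i + 1) + (i + 1), fun i n hn => ?_⟩
  have hn' : L0 (i + 1) + (i + 1) ≤ n := hn
  have hP : L0 (i + 1) ≤ n := by omega
  have h3 : L0 (Nat.findGreatest (fun N => L0 N ≤ n) n) ≤ n :=
    Nat.findGreatest_spec (P := fun N => L0 N ≤ n) (m := i + 1) (by omega) hP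
  have h4 : i + 1 ≤ Nat.findGreatest (fun N => L0 N ≤ n) n :=
    Nat.le_findGreatest (P := fun N => L0 N ≤ n) (by omega) hP
  simp only [h3, dif_pos]
  exact h2 _ i (by omega)

open Classical in
/-- the display of the image point -/
noncomputable def D (G' : ℕ → ℕ → Bool) (c : K) (z : (n : ℕ) → ZMod (M n)) (κ : K) (i j : ℕ)
    (d : Bool) : ℕ → ℕ → Bool
  | _, 0 => d
  | s, m + 1 => if z (s + 1) ≠ 0 then F G' (c s * κ s : Gam s) i j else D G' c z κ i j d (s + 1) m

theorem D_of_level (G' : ℕ → ℕ → Bool) (c : K) (z : (n : ℕ) → ZMod (M n)) (κ : K) (i j : ℕ)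
    (d : Bool) (l : ℕ) (h1 : ∀ n ≤ l, z n = 0) (h2 : z (l + 1) ≠ 0) (m : ℕ) :
    ∀ s ≤ l, D G' c z κ i j d s m = if l < s + m then F G' (c l * κ l : Gam l) i j else d := by
  induction m with
  | zero =>
    intro s hs
    rw [if_neg (by omega)]
    rfl
  | succ m ih =>
    intro s hs
    unfold D
    by_cases h : s = l
    · subst h
      rw [if_pos h2, if_pos (by omega)]
    · rw [if_neg (by rw [not_not]; exact h1 _ (by omega)), ih (s + 1) (by omega)]
      have : s + 1 + m = s + (m + 1) := by ring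
      rw [this]

theorem D_of_zero (G' : ℕ → ℕ → Bool) (c : K) (z : (n : ℕ) → ZMod (M n)) (κ : K) (i j : ℕ)
    (d : Bool) (h1 : ∀ n, z n = 0) (m : ℕ) :
    ∀ s, D G' c z κ i j d s m = d := by
  induction m with
  | zero => intro s; rfl
  | succ m ih =>
    intro s
    unfold D
    rw [if_neg (by rw [not_not]; exact h1 _), ih]

/-- the conjugacy induced by an isomorphism, on the ambient space -/
noncomputable def H (G' : ℕ → ℕ → Bool) (c : K) (g : Equiv.Perm ℕ) (n0 : ℕ → ℕ) (x : Amb) : Amb :=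
  (x.1, fun t => c * x.2.1 t, fun t i j =>
    D G' c (fun n => x.1 n + (t : ZMod (M n))) (x.2.1 t) i j (x.2.2 t (g⁻¹ i) (g⁻¹ j)) 0
      (n0 (g⁻¹ i) + n0 (g⁻¹ j)))

theorem H_sh (G' : ℕ → ℕ → Bool) (c : K) (g : Equiv.Perm ℕ) (n0 : ℕ → ℕ) (m : ℤ) (x : Amb) :
    H G' c g n0 (sh m x) = sh m (H G' c g n0 x) := by
  refine Prod.ext rfl (Prod.ext rfl ?_)
  funext t i j
  have e : (fun n => (x.1 n + (m : ZMod (M n))) + (t : ZMod (M n))) =
      fun n => x.1 n + ((t + m : ℤ) : ZMod (M n)) := by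
    funext n; push_cast; ring
  show D G' c (fun n => (x.1 n + (m : ZMod (M n))) + (t : ZMod (M n))) (x.2.1 (t + m)) i j
      (x.2.2 (t + m) (g⁻¹ i) (g⁻¹ j)) 0 (n0 (g⁻¹ i) + n0 (g⁻¹ j)) =
    D G' c (fun n => x.1 n + ((t + m : ℤ) : ZMod (M n))) (x.2.1 (t + m)) i j
      (x.2.2 (t + m) (g⁻¹ i) (g⁻¹ j)) 0 (n0 (g⁻¹ i) + n0 (g⁻¹ j))
  rw [e]

theorem continuous_D (G' : ℕ → ℕ → Bool) (c : K) (i j : ℕ) {α : Type*} [TopologicalSpace α]
    {z : α → (n : ℕ) → ZMod (M n)} {κ : α → K} {d : α → Bool} (hz : ∀ n, Continuous fun a => z a n)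
    (hκ : ∀ n, Continuous fun a => κ a n) (hd : Continuous d) (m : ℕ) :
    ∀ s, Continuous fun a => D G' c (z a) (κ a) i j (d a) s m := by
  induction m with
  | zero => intro s; exact hd
  | succ m ih =>
    intro s
    have h1 : Continuous fun a => (z a (s + 1), κ a s, D G' c (z a) (κ a) i j (d a) (s + 1) m) :=
      (hz (s + 1)).prodMk ((hκ s).prodMk (ih (s + 1)))
    have h2 : Continuous (fun p : ZMod (M (s + 1)) × Gam s × Bool =>
        open Classical in if p.1 ≠ 0 then F G' (c s * p.2.1 : Gam s) i j else p.2.2) :=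
      continuous_of_discreteTopology
    exact h2.comp h1

theorem continuous_H (G' : ℕ → ℕ → Bool) (c : K) (g : Equiv.Perm ℕ) (n0 : ℕ → ℕ) :
    Continuous (H G' c g n0) := by
  unfold H
  refine Continuous.prodMk continuous_fst (Continuous.prodMk ?_ ?_)
  · refine continuous_pi fun t => continuous_pi fun n => ?_
    exact (continuous_of_discreteTopology (f := fun a : Gam n => c n * a)).comp
      ((continuous_apply n).comp ((continuous_apply t).comp (continuous_fst.comp continuous_snd)))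
  · refine continuous_pi fun t => continuous_pi fun i => continuous_pi fun j => ?_
    refine continuous_D G' c i j (fun n => ?_) (fun n => ?_) ?_ _ _
    · exact (continuous_of_discreteTopology
        (f := fun a : ZMod (M n) => a + (t : ZMod (M n)))).comp
        ((continuous_apply n).comp continuous_fst)
    · exact (continuous_apply n).comp
        ((continuous_apply t).comp (continuous_fst.comp continuous_snd))
    · exact (continuous_apply _).comp ((continuous_apply _).comp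
        ((continuous_apply t).comp (continuous_snd.comp continuous_snd)))

theorem F_transfer {G G' : ℕ → ℕ → Bool} {g ρ σ : Equiv.Perm ℕ} (hg : ∀ i j, G i j = G' (g i) (g j))
    {i j : ℕ} (hi : ρ⁻¹ i = g⁻¹ i) (hj : ρ⁻¹ j = g⁻¹ j) :
    F G' (ρ * σ) i j = F G σ (g⁻¹ i) (g⁻¹ j) := by
  unfold F
  have e1 : (ρ * σ)⁻¹ i = σ⁻¹ (g⁻¹ i) := by rw [mul_inv_rev, Equiv.Perm.mul_apply, hi]
  have e2 : (ρ * σ)⁻¹ j = σ⁻¹ (g⁻¹ j) := by rw [mul_inv_rev, Equiv.Perm.mul_apply, hj]
  have e3 : G (g⁻¹ i) (g⁻¹ j) = G' i j := by rw [hg]; simp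
  rw [e1, e2, e3]
  by_cases h : i = j
  · subst h; simp
  · have : g⁻¹ i ≠ g⁻¹ j := fun e => h (g⁻¹.injective e)
    rw [if_neg h, if_neg this]

theorem H_P {G G' : ℕ → ℕ → Bool} {g : Equiv.Perm ℕ} (hg : ∀ i j, G i j = G' (g i) (g j))
    {c : K} {n0 : ℕ → ℕ} (hc : ∀ i n, n0 i ≤ n → (c n : Equiv.Perm ℕ) i = g i) (a b : K)
    (τ : Equiv.Perm ℕ) : H G' c g n0 (P G a b τ) = P G' (c * a) (c * b) (g * τ) := by
  have hst : ∀ t, st (c * a) (c * b) t = c * st a b t := by
    intro t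
    unfold st
    by_cases h0 : t < 0
    · simp [h0, mul_assoc]
    · simp [h0, mul_assoc]
  refine Prod.ext rfl (Prod.ext ?_ ?_)
  · funext t; exact (hst t).symm
  · funext t i j
    show D G' c (fun n => (0 : ZMod (M n)) + (t : ZMod (M n))) (st a b t) i j
        ((if t = 0 then F G τ else F G (st a b t (lev t))) (g⁻¹ i) (g⁻¹ j)) 0
        (n0 (g⁻¹ i) + n0 (g⁻¹ j)) =
      (if t = 0 then F G' (g * τ) else F G' (st (c * a) (c * b) t (lev t))) i j
    by_cases h0 : t = 0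
    · rw [if_pos h0, if_pos h0, D_of_zero _ _ _ _ _ _ _ (by intro n; rw [h0]; simp),
        F_transfer hg rfl rfl]
    · rw [if_neg h0, if_neg h0, hst]
      obtain ⟨h1, h2⟩ := lev_spec h0
      rw [D_of_level G' c _ _ i j _ (lev t) ?_ ?_ _ 0 (Nat.zero_le _)]
      · split_ifs with h3
        · rfl
        · symm
          have key : ∀ i, n0 (g⁻¹ i) ≤ lev t → (c (lev t) : Equiv.Perm ℕ)⁻¹ i = g⁻¹ i := by
            intro i hi
            rw [Equiv.Perm.inv_eq_iff_eq, hc _ _ hi]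
            simp
          exact F_transfer hg (key i (by omega)) (key j (by omega))
      · intro n hn
        rw [zero_add, ZMod.intCast_zmod_eq_zero_iff_dvd]
        exact (M_dvdZ hn).trans h1
      · rw [zero_add, Ne, ZMod.intCast_zmod_eq_zero_iff_dvd]
        exact h2

theorem H_mem {G G' : ℕ → ℕ → Bool} {g : Equiv.Perm ℕ} (hg : ∀ i j, G i j = G' (g i) (g j))
    {c : K} {n0 : ℕ → ℕ} (hc : ∀ i n, n0 i ≤ n → (c n : Equiv.Perm ℕ) i = g i) {x : Amb}
    (hx : x ∈ X G) : H G' c g n0 x ∈ X G' := by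
  have h : X G ⊆ H G' c g n0 ⁻¹' X G' := by
    apply closure_minimal
    · rintro _ ⟨m, rfl⟩
      show H G' c g n0 (sh m (P G 1 1 1)) ∈ X G'
      rw [H_sh, H_P hg hc]
      exact sh_mem_X _ (P_mem_X _ _ _ _)
    · exact (isClosed_X G').preimage (continuous_H _ _ _ _)
  exact h hx

theorem H_H {G G' : ℕ → ℕ → Bool} {g g' : Equiv.Perm ℕ} (hg : ∀ i j, G i j = G' (g i) (g j))
    (hg' : ∀ i j, G' i j = G (g' i) (g' j)) (hgg : g' * g = 1)
    {c c' : K} (hcc : c' * c = 1) {n0 n0' : ℕ → ℕ}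
    (hc : ∀ i n, n0 i ≤ n → (c n : Equiv.Perm ℕ) i = g i)
    (hc' : ∀ i n, n0' i ≤ n → (c' n : Equiv.Perm ℕ) i = g' i) {x : Amb}
    (hx : x ∈ X G) : H G c' g' n0' (H G' c g n0 x) = x := by
  have h : X G ⊆ {x | H G c' g' n0' (H G' c g n0 x) = x} := by
    apply closure_minimal
    · rintro _ ⟨m, rfl⟩
      show H G c' g' n0' (H G' c g n0 (sh m (P G 1 1 1))) = sh m (P G 1 1 1)
      rw [H_sh, H_sh, H_P hg hc, H_P hg' hc', ← mul_assoc, ← mul_assoc, hcc, hgg, one_mul, one_mul]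
    · exact isClosed_eq ((continuous_H _ _ _ _).comp (continuous_H _ _ _ _)) continuous_id
  exact h hx

/-- Isomorphic graphs have conjugate systems. -/
theorem sysConj_of_iso {G G' : ℕ → ℕ → Bool} (g : Equiv.Perm ℕ)
    (hg : ∀ i j, G i j = G' (g i) (g j)) : SysConj G G' := by
  obtain ⟨c, n0, hc⟩ := exists_c g
  have hg' : ∀ i j, G' i j = G (g⁻¹ i) (g⁻¹ j) := by
    intro i j; rw [hg]; simp
  have hc' : ∀ i n, n0 (g⁻¹ i) ≤ n → ((c⁻¹ : K) n : Equiv.Perm ℕ) i = g⁻¹ i := by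
    intro i n hn
    show ((c n)⁻¹ : Gam n).1 i = g⁻¹ i
    have : ((c n)⁻¹ : Gam n).1 = (c n : Equiv.Perm ℕ)⁻¹ := rfl
    rw [this, Equiv.Perm.inv_eq_iff_eq, hc _ _ hn]
    simp
  refine ⟨{ toFun := fun x => ⟨H G' c g n0 x.1, H_mem hg hc x.2⟩
            invFun := fun x => ⟨H G c⁻¹ g⁻¹ (fun i => n0 (g⁻¹ i)) x.1, H_mem hg' hc' x.2⟩
            left_inv := fun x => Subtype.ext
              (H_H hg hg' (inv_mul_cancel g) (inv_mul_cancel c) hc hc' x.2)
            right_inv := fun x => Subtype.ext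
              (H_H hg' hg (mul_inv_cancel g) (mul_inv_cancel c) hc' hc x.2)
            continuous_toFun := ((continuous_H _ _ _ _).comp continuous_subtype_val).subtype_mk _
            continuous_invFun :=
              ((continuous_H _ _ _ _).comp continuous_subtype_val).subtype_mk _ }, ?_⟩
  intro x
  exact Subtype.ext (H_sh _ _ _ _ _ _)

end Pool.Agent.R806.MC
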