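import Pool.Agent.R806.MC.Defs

/-!
# Borel trivialisation of perfect closed subsets of the Cantor space
-/

open Set Filter Topology MeasureTheory

namespace Pool.Agent.R806.MC

/-- the branch `x` of `P` splits at `n` -/
def Split (P : Set Cantor) (x : Cantor) (n : ℕ) : Prop :=
  ∃ y ∈ P, (∀ i < n, y i = x i) ∧ y n ≠ x n

/-- no isolated points -/
def Perf (P : Set Cantor) : Prop := ∀ x ∈ P, ∀ N : ℕ, ∃ y ∈ P, y ≠ x ∧ ∀ i < N, y i = x i

theorem split_congr_lt {P : Set Cantor} {x x' : Cantor} {n : ℕ} (h : ∀ i ≤ n, x i = x' i) :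
    Split P x n ↔ Split P x' n := by
  unfold Split
  constructor
  · rintro ⟨y, hy, h1, h2⟩
    exact ⟨y, hy, fun i hi => (h1 i hi).trans (h i hi.le), by rw [← h n le_rfl]; exact h2⟩
  · rintro ⟨y, hy, h1, h2⟩
    exact ⟨y, hy, fun i hi => (h1 i hi).trans (h i hi.le).symm, by rw [h n le_rfl]; exact h2⟩

theorem exists_first_diff {x y : Cantor} (h : y ≠ x) : ∃ n, (∀ i < n, y i = x i) ∧ y n ≠ x n := by
  have h1 : ∃ n, y n ≠ x n := by
    by_contra hc
    push Not at hc
    exact h (funext hc)
  classical
  refine ⟨Nat.find h1, fun i hi => ?_, Nat.find_spec h1⟩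
  have := Nat.find_min h1 hi
  rwa [not_not] at this

theorem split_infinite {P : Set Cantor} (hP : Perf P) {x : Cantor} (hx : x ∈ P) :
    {n | Split P x n}.Infinite := by
  rw [Set.infinite_iff_exists_gt]
  intro N
  obtain ⟨y, hy, h1, h2⟩ := hP x hx (N + 1)
  obtain ⟨n, hn1, hn2⟩ := exists_first_diff h1
  refine ⟨n, ⟨y, hy, hn1, hn2⟩, ?_⟩
  by_contra hc
  exact hn2 (h2 n (by omega))

open Classical in
/-- the number of splittings before `n` -/
noncomputable def cnt (P : Set Cantor) (x : Cantor) (n : ℕ) : ℕ := Nat.count (Split P x) n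

theorem cnt_congr {P : Set Cantor} {x x' : Cantor} {n : ℕ} (h : ∀ i < n, x i = x' i) :
    cnt P x n = cnt P x' n := by
  classical
  unfold cnt
  induction n with
  | zero => simp
  | succ n ih =>
    rw [Nat.count_succ, Nat.count_succ, ih (fun i hi => h i (by omega))]
    have := split_congr_lt (P := P) (n := n) (fun i hi => h i (by omega))
    simp only [this]

/-- the homeomorphism of a perfect set with the Cantor space -/
noncomputable def phi (P : Set Cantor) (x : Cantor) (k : ℕ) : Bool := x (Nat.nth (Split P x) k)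

theorem phi_of_split {P : Set Cantor} {x : Cantor} {n k : ℕ} (h : Split P x n)
    (hk : cnt P x n = k) : phi P x k = x n := by
  classical
  unfold phi
  have : Nat.nth (Split P x) k = n := by
    rw [← hk]
    exact Nat.nth_count h
  rw [this]

theorem exists_split {P : Set Cantor} (hP : Perf P) {x : Cantor} (hx : x ∈ P) (k : ℕ) :
    ∃ n, Split P x n ∧ cnt P x n = k := by
  classical
  refine ⟨Nat.nth (Split P x) k, Nat.nth_mem_of_infinite (split_infinite hP hx) k, ?_⟩
  exact Nat.count_nth_of_infinite (split_infinite hP hx) k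

theorem phi_eq_iff {P : Set Cantor} (hP : Perf P) {x : Cantor} (hx : x ∈ P) (k : ℕ) (b : Bool) :
    phi P x k = b ↔ ∃ n, Split P x n ∧ cnt P x n = k ∧ x n = b := by
  constructor
  · intro h
    obtain ⟨n, h1, h2⟩ := exists_split hP hx k
    exact ⟨n, h1, h2, by rw [← phi_of_split h1 h2]; exact h⟩
  · rintro ⟨n, h1, h2, h3⟩
    rw [phi_of_split h1 h2, h3]

theorem phi_injOn {P : Set Cantor} {x y : Cantor} (hx : x ∈ P) (hy : y ∈ P)
    (h : phi P x = phi P y) : x = y := by
  by_contra hne
  obtain ⟨n, h1, h2⟩ := exists_first_diff hne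
  have s1 : Split P x n := ⟨y, hy, fun i hi => (h1 i hi).symm, fun e => h2 e.symm⟩
  have s2 : Split P y n := ⟨x, hx, h1, h2⟩
  have e1 := phi_of_split s1 rfl
  have e2 := phi_of_split s2 rfl
  rw [cnt_congr h1, h, e2] at e1
  exact h2 e1.symm

theorem phi_local {P : Set Cantor} {x : Cantor} {n k : ℕ} (h1 : Split P x n)
    (h2 : cnt P x n = k) {y : Cantor} (hy : ∀ i ≤ n, y i = x i) : phi P y k = phi P x k := by
  rw [phi_of_split h1 h2, phi_of_split ((split_congr_lt hy).2 h1)
    ((cnt_congr (fun i hi => hy i hi.le)).trans h2), hy n le_rfl]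

theorem eventually_agree (x : Cantor) (n : ℕ) : ∀ᶠ y in 𝓝 x, ∀ i ≤ n, y i = x i := by
  have : ∀ᶠ y in 𝓝 x, ∀ i ∈ {i | i ≤ n}, y i = x i := by
    rw [eventually_all_finite (Set.finite_le_nat n)]
    intro i _
    exact (continuous_apply i).continuousAt.eventually_mem ((isOpen_discrete {x i}).mem_nhds rfl)
  exact this

theorem continuous_phi {P : Set Cantor} (hP : Perf P) : Continuous fun x : P => phi P x.1 := by
  refine continuous_pi fun k => ?_
  rw [continuous_iff_continuousAt]
  intro x
  obtain ⟨n, h1, h2⟩ := exists_split hP x.2 k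
  have h3 : ∀ᶠ y : P in 𝓝 x, phi P y.1 k = phi P x.1 k := by
    filter_upwards [continuous_subtype_val.continuousAt.eventually (eventually_agree x.1 n)]
      with y hy
    exact phi_local h1 h2 hy
  exact tendsto_const_nhds.congr' (h3.mono fun y hy => hy.symm)

theorem exists_prefix {P : Set Cantor} (hP : Perf P) (hne : P.Nonempty) (u : Cantor) (k : ℕ) :
    ∃ x ∈ P, ∀ i < k, phi P x i = u i := by
  induction k with
  | zero =>
    obtain ⟨x, hx⟩ := hne
    exact ⟨x, hx, fun i hi => absurd hi (Nat.not_lt_zero _)⟩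
  | succ k ih =>
    obtain ⟨x, hx, h⟩ := ih
    by_cases hk : phi P x k = u k
    · refine ⟨x, hx, fun i hi => ?_⟩
      rcases Nat.lt_succ_iff_lt_or_eq.1 hi with h' | h'
      · exact h i h'
      · rw [h']; exact hk
    · obtain ⟨n, h1, h2⟩ := exists_split hP hx k
      have h1' := h1
      obtain ⟨y, hy, h3, h4⟩ := h1'
      have s2 : Split P y n := ⟨x, hx, fun i hi => (h3 i hi).symm, fun e => h4 e.symm⟩
      refine ⟨y, hy, fun i hi => ?_⟩
      rcases Nat.lt_succ_iff_lt_or_eq.1 hi with h' | h'
      · rw [← h i h']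
        obtain ⟨m, h5, h6⟩ := exists_split hP hx i
        have hmn : m < n := by
          by_contra hc
          push Not at hc
          classical
          have : cnt P x n ≤ cnt P x m := Nat.count_monotone _ hc
          omega
        exact phi_local h5 h6 (fun i hi => h3 i (by omega))
      · rw [h']
        rw [phi_of_split s2 ((cnt_congr h3).trans h2)]
        rw [phi_of_split h1 h2] at hk
        revert hk h4
        cases y n <;> cases x n <;> cases u k <;> simp

theorem phi_surj {P : Set Cantor} (hP : Perf P) (hne : P.Nonempty) (hcl : IsClosed P) :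
    Function.Surjective fun x : P => phi P x.1 := by
  have : CompactSpace P := isCompact_iff_compactSpace.1 hcl.isCompact
  have h1 : IsClosed (range fun x : P => phi P x.1) :=
    (isCompact_range (continuous_phi hP)).isClosed
  intro u
  have h2 : u ∈ closure (range fun x : P => phi P x.1) := by
    rw [mem_closure_iff_nhds]
    intro U hU
    -- basic neighbourhoods
    have h3 : ∃ n, ∀ y : Cantor, (∀ i < n, y i = u i) → y ∈ U := by
      by_contra hc
      push Not at hc
      choose f hf1 hf2 using hc
      have : Tendsto f atTop (𝓝 u) := by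
        rw [tendsto_pi_nhds]
        intro i
        refine tendsto_const_nhds.congr' ?_
        filter_upwards [eventually_gt_atTop i] with n hn
        exact (hf1 n i hn).symm
      obtain ⟨n, hn⟩ := (this.eventually_mem hU).exists
      exact hf2 n hn
    obtain ⟨n, hn⟩ := h3
    obtain ⟨x, hx, hx2⟩ := exists_prefix hP hne u n
    exact ⟨phi P x, hn _ hx2, ⟨⟨x, hx⟩, rfl⟩⟩
  rw [h1.closure_eq] at h2
  exact h2

/-- the homeomorphism of a nonempty perfect closed set with the Cantor space -/
noncomputable def phiH {P : Set Cantor} (hP : Perf P) (hne : P.Nonempty) (hcl : IsClosed P) :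
    P ≃ₜ Cantor :=
  have : CompactSpace P := isCompact_iff_compactSpace.1 hcl.isCompact
  Continuous.homeoOfEquivCompactToT2 (f := Equiv.ofBijective (fun x : P => phi P x.1)
    ⟨fun x y h => Subtype.ext (phi_injOn x.2 y.2 h), phi_surj hP hne hcl⟩) (continuous_phi hP)

theorem phiH_apply {P : Set Cantor} (hP : Perf P) (hne : P.Nonempty) (hcl : IsClosed P) (x : P) :
    phiH hP hne hcl x = phi P x.1 := rfl

theorem measurable_homeo {Ω : Type*} [MeasurableSpace Ω] (Θ : Ω → (Cantor ≃ₜ Cantor))
    (h : ∀ K V : Set Cantor, IsClopen K → IsClopen V → MeasurableSet {ω | MapsTo (Θ ω) K V}) :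
    Measurable Θ := by
  have e1 : borel (Cantor ≃ₜ Cantor) = MeasurableSpace.comap
      (fun h : Cantor ≃ₜ Cantor => (⟨h, h.continuous⟩ : C(Cantor, Cantor)))
      (borel C(Cantor, Cantor)) :=
    borel_comap
  show Measurable[_, borel (Cantor ≃ₜ Cantor)] Θ
  rw [e1, measurable_comap_iff]
  have e2 : (ContinuousMap.compactOpen : TopologicalSpace C(Cantor, Cantor)) = _ :=
    ContinuousMap.compactOpen_eq_generateFrom (S := {K : Set Cantor | IsClopen K})
      (T := {V : Set Cantor | IsClopen V}) (fun K hK => hK.isClosed.isCompact)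
      isTopologicalBasis_isClopen (by
        intro f x V hV hx
        refine ⟨f ⁻¹' V, hV.preimage f.continuous, ?_, fun y hy => hy⟩
        exact (hV.isOpen.preimage f.continuous).mem_nhds hx)
  rw [borel_eq_generateFrom_of_subbasis e2]
  apply measurable_generateFrom
  rintro _ ⟨K, hK, t, ⟨ht1, ht2⟩, rfl⟩
  refine h K (⋃₀ t) hK ?_
  rw [sUnion_eq_biUnion]
  exact ht1.isClopen_biUnion ht2

section

variable {Ω : Type*} [MeasurableSpace Ω]

theorem measurable_split {y : Ω → ℤ → Cantor} (hy : ∀ t i, Measurable fun ω => y ω t i) (t : ℤ)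
    (n : ℕ) : MeasurableSet {ω | Split (closure (range (y ω))) (y ω t) n} := by
  have e : {ω | Split (closure (range (y ω))) (y ω t) n} =
      ⋃ s : ℤ, ((⋂ i ∈ {i | i < n}, {ω | y ω s i = y ω t i}) ∩ {ω | y ω s n ≠ y ω t n}) := by
    ext ω
    simp only [mem_ofPred_eq, mem_iUnion, mem_inter_iff, mem_iInter]
    constructor
    · rintro ⟨x, hx, h1, h2⟩
      rw [mem_closure_iff_nhds] at hx
      obtain ⟨_, h3, ⟨s, rfl⟩⟩ := hx _ (eventually_agree x n)
      exact ⟨s, fun i hi => (h3 i (le_of_lt hi)).trans (h1 i hi), by rw [h3 n le_rfl]; exact h2⟩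
    · rintro ⟨s, h1, h2⟩
      exact ⟨_, subset_closure ⟨s, rfl⟩, h1, h2⟩
  rw [e]
  refine MeasurableSet.iUnion fun s => MeasurableSet.inter ?_ ?_
  · refine MeasurableSet.biInter (Set.to_countable _) fun i _ => ?_
    exact measurableSet_eq_fun (hy s i) (hy t i)
  · exact (measurableSet_eq_fun (hy s n) (hy t n)).compl

theorem measurable_cnt {y : Ω → ℤ → Cantor} (hy : ∀ t i, Measurable fun ω => y ω t i) (t : ℤ)
    (n : ℕ) : Measurable fun ω => cnt (closure (range (y ω))) (y ω t) n := by
  classical
  induction n with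
  | zero => exact measurable_const
  | succ n ih =>
    have e : (fun ω => cnt (closure (range (y ω))) (y ω t) (n + 1)) = fun ω =>
        cnt (closure (range (y ω))) (y ω t) n +
          (if Split (closure (range (y ω))) (y ω t) n then 1 else 0) := by
      funext ω
      unfold cnt
      rw [Nat.count_succ]
    rw [e]
    exact ih.add (Measurable.ite (measurable_split hy t n) measurable_const measurable_const)

theorem measurable_phi {y : Ω → ℤ → Cantor} (hy : ∀ t i, Measurable fun ω => y ω t i)
    (hP : ∀ ω, Perf (closure (range (y ω)))) (t : ℤ) :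
    Measurable fun ω => phi (closure (range (y ω))) (y ω t) := by
  rw [measurable_pi_iff]
  intro k
  refine measurable_to_bool ?_
  have e : (fun ω => phi (closure (range (y ω))) (y ω t) k) ⁻¹' {true} =
      ⋃ n : ℕ, ({ω | Split (closure (range (y ω))) (y ω t) n} ∩
        {ω | cnt (closure (range (y ω))) (y ω t) n = k} ∩ {ω | y ω t n = true}) := by
    ext ω
    simp only [mem_preimage, mem_singleton_iff, mem_iUnion, mem_inter_iff, mem_ofPred_eq]
    rw [phi_eq_iff (hP ω) (subset_closure ⟨t, rfl⟩)]
    simp only [and_assoc]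
  rw [e]
  refine MeasurableSet.iUnion fun n => (MeasurableSet.inter (measurable_split hy t n) ?_).inter ?_
  · exact measurableSet_eq_fun (measurable_cnt hy t n) measurable_const
  · exact measurableSet_eq_fun (hy t n) measurable_const

/-- Borel realisation of a family of orbit closures as homeomorphisms of the Cantor space. -/
theorem exists_theta (y : Ω → ℤ → Cantor) (hy : ∀ t i, Measurable fun ω => y ω t i)
    (hP : ∀ ω, Perf (closure (range (y ω))))
    (T : ∀ ω, closure (range (y ω)) ≃ₜ closure (range (y ω)))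
    (hT : ∀ ω t, (T ω ⟨y ω t, subset_closure ⟨t, rfl⟩⟩ : Cantor) = y ω (t + 1)) :
    ∃ Θ : Ω → (Cantor ≃ₜ Cantor), Measurable Θ ∧
      ∀ ω, ∃ f : closure (range (y ω)) ≃ₜ Cantor, ∀ x, f (T ω x) = Θ ω (f x) := by
  have hne : ∀ ω, (closure (range (y ω))).Nonempty := fun ω => ⟨_, subset_closure ⟨0, rfl⟩⟩
  let f : ∀ ω, closure (range (y ω)) ≃ₜ Cantor := fun ω => phiH (hP ω) (hne ω) isClosed_closure
  refine ⟨fun ω => ((f ω).symm.trans (T ω)).trans (f ω), ?_, fun ω => ⟨f ω, fun x => by simp⟩⟩
  apply measurable_homeo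
  intro K V hK hV
  have e : {ω | MapsTo (((f ω).symm.trans (T ω)).trans (f ω)) K V} =
      ⋂ t : ℤ, ({ω | phi (closure (range (y ω))) (y ω t) ∈ Kᶜ} ∪
        {ω | phi (closure (range (y ω))) (y ω (t + 1)) ∈ V}) := by
    ext ω
    simp only [mem_ofPred_eq, mem_iInter, mem_union]
    constructor
    · intro h t
      by_cases h1 : phi (closure (range (y ω))) (y ω t) ∈ K
      · right
        have h2 := h h1
        have h3 : (f ω).symm (phi (closure (range (y ω))) (y ω t)) =
            ⟨y ω t, subset_closure ⟨t, rfl⟩⟩ := by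
          rw [Homeomorph.symm_apply_eq]; rfl
        simp only [Homeomorph.trans_apply, h3] at h2
        have h4 : f ω (T ω ⟨y ω t, subset_closure ⟨t, rfl⟩⟩) =
            phi (closure (range (y ω))) (y ω (t + 1)) := by
          show phi (closure (range (y ω))) (T ω ⟨y ω t, subset_closure ⟨t, rfl⟩⟩ : Cantor) = _
          rw [hT]
        rwa [h4] at h2
      · left; exact h1
    · intro h p hp
      by_contra hc
      -- an open set of bad points
      let W : Set (closure (range (y ω))) := {x | f ω x ∈ K ∧ f ω (T ω x) ∈ Vᶜ}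
      have hW : IsOpen W :=
        (hK.isOpen.preimage (f ω).continuous).inter
          (hV.compl.isOpen.preimage ((f ω).continuous.comp (T ω).continuous))
      have hpW : (f ω).symm p ∈ W := by
        refine ⟨by simpa using hp, hc⟩
      obtain ⟨O, hO, hOW⟩ := isOpen_induced_iff.1 hW
      have h1 : ((f ω).symm p).1 ∈ O := by
        have : (f ω).symm p ∈ Subtype.val ⁻¹' O := by rw [hOW]; exact hpW
        exact this
      obtain ⟨_, h2, ⟨t, rfl⟩⟩ := mem_closure_iff.1 ((f ω).symm p).2 O hO h1
      have h3 : (⟨y ω t, subset_closure ⟨t, rfl⟩⟩ : closure (range (y ω))) ∈ W := by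
        rw [← hOW]; exact h2
      have h4 : f ω (T ω ⟨y ω t, subset_closure ⟨t, rfl⟩⟩) =
            phi (closure (range (y ω))) (y ω (t + 1)) := by
          show phi (closure (range (y ω))) (T ω ⟨y ω t, subset_closure ⟨t, rfl⟩⟩ : Cantor) = _
          rw [hT]
      rcases h t with h5 | h5
      · exact h5 h3.1
      · have h6 := h3.2
        rw [h4] at h6
        exact h6 h5
  rw [e]
  refine MeasurableSet.iInter fun t => MeasurableSet.union ?_ ?_
  · exact measurable_phi hy hP t hK.compl.isOpen.measurableSet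
  · exact measurable_phi hy hP (t + 1) hV.isOpen.measurableSet

end

end Pool.Agent.R806.MC
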