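import Pool.Agent.R806.MC.Bwd
import Pool.Agent.R806.MC.Triv

/-!
# The reduction of graph isomorphism to conjugacy of minimal homeomorphisms
-/

open Set Filter Topology MeasureTheory

namespace Pool.Agent.R806.MC

/-- index set for separating clopen partitions -/
abbrev J : Type := (Σ n, ZMod (M n)) ⊕ (Σ n, Gam n) ⊕ (ℕ × ℕ)

open Classical in
/-- separating Boolean functions -/
noncomputable def β (x : Amb) : J → Bool
  | Sum.inl ⟨n, a⟩ => decide (x.1 n = a)
  | Sum.inr (Sum.inl ⟨n, σ⟩) => decide (x.2.1 0 n = σ)
  | Sum.inr (Sum.inr (i, j)) => x.2.2 0 i j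

theorem continuous_β (j : J) : Continuous fun x => β x j := by
  classical
  rcases j with ⟨n, a⟩ | ⟨n, σ⟩ | ⟨i, j⟩
  · exact (continuous_of_discreteTopology (f := fun b : ZMod (M n) => decide (b = a))).comp
      (continuous_z n)
  · exact (continuous_of_discreteTopology (f := fun b : Gam n => decide (b = σ))).comp
      (continuous_κ 0 n)
  · exact continuous_δ 0 i j

theorem exists_enum : ∃ s : ℕ → ℤ × J, Function.Surjective s := by
  have : Nonempty (ℤ × J) := ⟨(0, Sum.inr (Sum.inr (0, 0)))⟩
  exact exists_surjective_nat _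

/-- enumeration -/
noncomputable def en : ℕ → ℤ × J := exists_enum.choose

theorem en_surj : Function.Surjective en := exists_enum.choose_spec

/-- the embedding of the ambient space in the Cantor space -/
noncomputable def emb (x : Amb) : Cantor := fun n => β (sh (en n).1 x) (en n).2

theorem continuous_emb : Continuous emb :=
  continuous_pi fun n => (continuous_β (en n).2).comp (continuous_sh (en n).1)

theorem emb_injective : Function.Injective emb := by
  intro x x' h
  have key : ∀ (t : ℤ) (j : J), β (sh t x) j = β (sh t x') j := by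
    intro t j
    obtain ⟨n, hn⟩ := en_surj (t, j)
    have := congrFun h n
    unfold emb at this
    rw [hn] at this
    exact this
  refine Prod.ext ?_ (Prod.ext ?_ ?_)
  · funext n
    have := key 0 (Sum.inl ⟨n, x.1 n⟩)
    rw [sh_zero, sh_zero] at this
    simp only [β, decide_true] at this
    exact (of_decide_eq_true this.symm).symm
  · funext t n
    have := key t (Sum.inr (Sum.inl ⟨n, x.2.1 t n⟩))
    simp only [β, sh, zero_add, decide_true] at this
    have h2 := this.symm
    simp only [decide_eq_true_eq, zero_add] at h2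
    exact h2.symm
  · funext t i j
    have := key t (Sum.inr (Sum.inr (i, j)))
    simp only [β, sh, zero_add] at this
    exact this

theorem emb_closed : IsClosedEmbedding emb := continuous_emb.isClosedEmbedding emb_injective

open Classical in
/-- the Boolean adjacency matrix -/
noncomputable def adj (G : SimpleGraph ℕ) (i j : ℕ) : Bool := decide (G.Adj i j)

/-- the orbit in the Cantor space -/
noncomputable def orb (G : SimpleGraph ℕ) (t : ℤ) : Cantor := emb (sh t (P (adj G) 1 1 1))

theorem measurable_adj' (i j : ℕ) : Measurable fun G : SimpleGraph ℕ => adj G i j := by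
  refine measurable_to_bool ?_
  have h1 : Measurable fun G : SimpleGraph ℕ => G.Adj i j :=
    SimpleGraph.measurable_iff_adj.1 measurable_id i j
  have e : (fun G : SimpleGraph ℕ => adj G i j) ⁻¹' {true} = {G | G.Adj i j} := by
    ext G
    simp [adj]
  rw [e]
  exact measurableSet_setOfPred.2 h1

theorem measurable_F (σ : Equiv.Perm ℕ) (i j : ℕ) :
    Measurable fun G : SimpleGraph ℕ => F (adj G) σ i j := by
  unfold F
  by_cases h : i = j
  · simp only [h, if_true]
    exact measurable_const
  · simp only [h, if_false]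
    exact (measurable_of_countable (fun b : Bool => (b && decide (σ⁻¹ i < σ⁻¹ j)))).comp
      (measurable_adj' i j)

theorem measurable_orb (t : ℤ) (n : ℕ) : Measurable fun G : SimpleGraph ℕ => orb G t n := by
  unfold orb emb
  rcases (en n).2 with ⟨l, a⟩ | ⟨l, σ⟩ | ⟨i, j⟩
  · exact (measurable_const : Measurable fun _ : SimpleGraph ℕ =>
      β (sh (en n).1 (sh t (P (fun _ _ => false) 1 1 1))) (Sum.inl ⟨l, a⟩))
  · exact (measurable_const : Measurable fun _ : SimpleGraph ℕ =>
      β (sh (en n).1 (sh t (P (fun _ _ => false) 1 1 1))) (Sum.inr (Sum.inl ⟨l, σ⟩)))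
  · show Measurable fun G : SimpleGraph ℕ =>
      (if (0 + (en n).1 + t) = 0 then F (adj G) 1
        else F (adj G) (st 1 1 (0 + (en n).1 + t) (lev (0 + (en n).1 + t)))) i j
    by_cases h : (0 + (en n).1 + t) = 0
    · simp only [h, if_true]
      exact measurable_F _ i j
    · simp only [h, if_false]
      exact measurable_F _ i j

theorem closure_orb (G : SimpleGraph ℕ) : closure (range (orb G)) = emb '' X (adj G) := by
  have e : range (orb G) = emb '' (range fun m : ℤ => sh m (P (adj G) 1 1 1)) := by
    rw [← range_comp]; rfl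
  rw [e, emb_closed.closure_image_eq]
  rfl

/-- the realisation of the minimal set in the Cantor space -/
noncomputable def real (G : SimpleGraph ℕ) : X (adj G) ≃ₜ closure (range (orb G)) :=
  (emb_closed.isEmbedding.homeomorphImage (X (adj G))).trans
    (Homeomorph.setCongr (closure_orb G).symm)

theorem real_val (G : SimpleGraph ℕ) (x : X (adj G)) : (real G x : Cantor) = emb x.1 := rfl

theorem perf_orb (G : SimpleGraph ℕ) : Perf (closure (range (orb G))) := by
  rw [closure_orb]
  rintro _ ⟨u, hu, rfl⟩ N
  obtain ⟨N', hN'⟩ := exists_near_of_mem_nhds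
    (continuous_emb.continuousAt.eventually (eventually_agree (emb u) N))
  obtain ⟨u', h1, h2, h3⟩ := perfect_X hu N'
  exact ⟨emb u', ⟨u', h1, rfl⟩, fun e => h2 (emb_injective e),
    fun i hi => hN' u' h3 i hi.le⟩

theorem sh_sh_one (G : SimpleGraph ℕ) (t : ℤ) :
    emb (sh 1 (sh t (P (adj G) 1 1 1))) = orb G (t + 1) := by
  rw [sh_sh]; rfl

theorem orb_mem (G : SimpleGraph ℕ) (t : ℤ) :
    real G (shm (adj G) t (pt (adj G) 1 1 1)) = ⟨orb G t, subset_closure ⟨t, rfl⟩⟩ :=
  Subtype.ext rfl

theorem exists_reduction : ∃ Θ : SimpleGraph ℕ → (Cantor ≃ₜ Cantor),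
    Measurable Θ ∧ (∀ G, IsMinimal (Θ G)) ∧
      ∀ G G' : SimpleGraph ℕ, Nonempty (G ≃g G') ↔ TopConj (Θ G) (Θ G') := by
  let T : ∀ G : SimpleGraph ℕ, closure (range (orb G)) ≃ₜ closure (range (orb G)) :=
    fun G => ((real G).symm.trans (shX (adj G))).trans (real G)
  obtain ⟨Θ, hΘ, hf⟩ := exists_theta orb measurable_orb perf_orb T (by
    intro G t
    have h1 : (real G).symm ⟨orb G t, subset_closure ⟨t, rfl⟩⟩ =
        shm (adj G) t (pt (adj G) 1 1 1) := by
      rw [Homeomorph.symm_apply_eq, orb_mem]
    show ((real G (shX (adj G) ((real G).symm ⟨orb G t, subset_closure ⟨t, rfl⟩⟩))) : Cantor) = _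
    rw [h1]
    show emb (sh 1 (sh t (P (adj G) 1 1 1))) = orb G (t + 1)
    exact sh_sh_one G t)
  -- the conjugacies of the systems with `Θ G`
  have hg : ∀ G, ∃ g : X (adj G) ≃ₜ Cantor, ∀ x, g (shX (adj G) x) = Θ G (g x) := by
    intro G
    obtain ⟨f, hf⟩ := hf G
    refine ⟨(real G).trans f, fun x => ?_⟩
    have := hf (real G x)
    simp only [T, Homeomorph.trans_apply, Homeomorph.symm_apply_apply] at this
    exact this
  choose g hg using hg
  have hgm : ∀ G (m : ℤ) x, g G (shm (adj G) m x) = (Θ G ^ m) (g G x) := by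
    intro G m
    have h1 : ∀ x, g G (shm (adj G) 1 x) = Θ G (g G x) := hg G
    induction m using Int.induction_on with
    | zero => intro x; rw [shm_zero, zpow_zero]; rfl
    | succ m ih =>
      intro x
      have e1 : shm (adj G) ((m : ℤ) + 1) x = shm (adj G) 1 (shm (adj G) m x) := by rw [shm_shm]
      rw [e1, h1, ih, add_comm, zpow_add, zpow_one]
      rfl
    | pred m ih =>
      intro x
      have e1 : shm (adj G) (-(m : ℤ)) x = shm (adj G) 1 (shm (adj G) (-(m : ℤ) - 1) x) := by
        rw [shm_shm, sub_add_cancel]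
      have h2 := ih x
      rw [e1, h1] at h2
      apply (Θ G).injective
      rw [h2]
      have e2 : (Θ G) ((Θ G ^ (-(m : ℤ) - 1)) (g G x)) =
          (Θ G ^ (1 : ℤ) * Θ G ^ (-(m : ℤ) - 1)) (g G x) := by rw [zpow_one]; rfl
      rw [e2, ← zpow_add]
      congr 2
      ring
  refine ⟨Θ, hΘ, ?_, ?_⟩
  · intro G p
    have h1 : Dense (range fun m : ℤ => shm (adj G) m ((g G).symm p)) := by
      intro x
      have h2 := dense_orbit ((g G).symm p).2 x.2
      rw [mem_closure_iff_nhds] at h2 ⊢
      intro U hU
      rw [nhds_subtype_eq_comap, mem_comap] at hU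
      obtain ⟨V, hV, hVU⟩ := hU
      obtain ⟨_, h3, ⟨m, rfl⟩⟩ := h2 V hV
      exact ⟨shm (adj G) m ((g G).symm p), hVU h3, ⟨m, rfl⟩⟩
    have h2 := (g G).surjective.denseRange.dense_image (g G).continuous h1
    rw [← range_comp] at h2
    have e : (range fun n : ℤ => (Θ G ^ n) p) =
        range ((g G) ∘ fun m : ℤ => shm (adj G) m ((g G).symm p)) := by
      congr 1
      funext n
      show (Θ G ^ n) p = g G (shm (adj G) n ((g G).symm p))
      rw [hgm, Homeomorph.apply_symm_apply]
    rw [e]
    exact h2
  · intro G G'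
    constructor
    · rintro ⟨i⟩
      obtain ⟨h, hh⟩ := sysConj_of_iso (G := adj G) (G' := adj G') i.toEquiv (by
        intro a b
        unfold adj
        rw [decide_eq_decide]
        exact i.map_adj_iff.symm)
      refine ⟨((g G').symm.trans h.symm).trans (g G), ?_⟩
      ext1 p
      show Θ G p = (g G) (h.symm ((g G').symm (Θ G' ((g G') (h ((g G).symm p))))))
      have h1 : Θ G' ((g G') (h ((g G).symm p))) = g G' (shX (adj G') (h ((g G).symm p))) :=
        (hg G' _).symm
      rw [h1, Homeomorph.symm_apply_apply, ← hh, Homeomorph.symm_apply_apply, hg,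
        Homeomorph.apply_symm_apply]
    · rintro ⟨h, hh⟩
      have h1 : SysConj (adj G) (adj G') := by
        refine ⟨((g G).trans h.symm).trans (g G').symm, fun x => ?_⟩
        show (g G').symm (h.symm (g G (shX (adj G) x))) =
          shX (adj G') ((g G').symm (h.symm (g G x)))
        rw [Homeomorph.symm_apply_eq, hg, hg, Homeomorph.apply_symm_apply, hh]
        show h.symm (h (Θ G' (h.symm (g G x)))) = _
        rw [Homeomorph.symm_apply_apply]
      obtain ⟨e, he⟩ := iso_of_sysConj (G := adj G) (G' := adj G')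
        (fun i j => by unfold adj; rw [decide_eq_decide]; exact G.adj_comm i j)
        (fun i => by unfold adj; simp)
        (fun i j => by unfold adj; rw [decide_eq_decide]; exact G'.adj_comm i j)
        (fun i => by unfold adj; simp) h1
      refine ⟨⟨e, fun {a b} => ?_⟩⟩
      have := he a b
      unfold adj at this
      rw [decide_eq_decide] at this
      exact this.symm

end Pool.Agent.R806.MC
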