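import Pool.Agent.R806.MC.Base

/-!
# The ambient shift system and the minimal sets `X G`
-/

open Set Filter Topology

namespace Pool.Agent.R806.MC

/-- ambient space: odometer coordinate, states, displays -/
abbrev Amb : Type := ((n : ℕ) → ZMod (M n)) × (ℤ → K) × (ℤ → ℕ → ℕ → Bool)

/-- the shift by `m` -/
noncomputable def sh (m : ℤ) (x : Amb) : Amb :=
  (fun n => x.1 n + (m : ZMod (M n)), fun t => x.2.1 (t + m), fun t => x.2.2 (t + m))

theorem sh_zero (x : Amb) : sh 0 x = x := by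
  simp [sh]

theorem sh_sh (m n : ℤ) (x : Amb) : sh m (sh n x) = sh (n + m) x := by
  unfold sh
  refine Prod.ext ?_ (Prod.ext ?_ ?_)
  · funext i; push_cast; ring
  · funext t; exact congrArg x.2.1 (by ring)
  · funext t; exact congrArg x.2.2 (by ring)

theorem continuous_sh (m : ℤ) : Continuous (sh m) := by
  unfold sh
  refine Continuous.prodMk ?_ (Continuous.prodMk ?_ ?_)
  · refine continuous_pi fun n => ?_
    exact (continuous_of_discreteTopology (f := fun a : ZMod (M n) => a + (m : ZMod (M n)))).comp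
      ((continuous_apply n).comp continuous_fst)
  · exact continuous_pi fun t => (continuous_apply _).comp (continuous_fst.comp continuous_snd)
  · exact continuous_pi fun t => (continuous_apply _).comp (continuous_snd.comp continuous_snd)

/-- the display of a permutation -/
def F (G : ℕ → ℕ → Bool) (σ : Equiv.Perm ℕ) (i j : ℕ) : Bool :=
  if i = j then decide (Even (σ⁻¹ i)) else (G i j && decide (σ⁻¹ i < σ⁻¹ j))

/-- the state of the special points -/
noncomputable def st (a b : K) (t : ℤ) : K := (if t < 0 then a else b) * κ0 t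

/-- the special points with odometer coordinate `0` -/
noncomputable def P (G : ℕ → ℕ → Bool) (a b : K) (τ : Equiv.Perm ℕ) : Amb :=
  (fun _ => 0, fun t => st a b t, fun t => if t = 0 then F G τ else F G (st a b t (lev t)))

/-- closeness -/
def Near (N : ℕ) (x y : Amb) : Prop :=
  (∀ n < N, x.1 n = y.1 n) ∧ (∀ t : ℤ, t.natAbs < N → ∀ i < N, x.2.1 t i = y.2.1 t i) ∧
    ∀ t : ℤ, t.natAbs < N → ∀ i < N, ∀ j < N, x.2.2 t i j = y.2.2 t i j

theorem Near.refl (N : ℕ) (x : Amb) : Near N x x :=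
  ⟨fun _ _ => rfl, fun _ _ _ _ => rfl, fun _ _ _ _ _ _ => rfl⟩

theorem Near.symm {N : ℕ} {x y : Amb} (h : Near N x y) : Near N y x :=
  ⟨fun n hn => (h.1 n hn).symm, fun t ht i hi => (h.2.1 t ht i hi).symm,
    fun t ht i hi j hj => (h.2.2 t ht i hi j hj).symm⟩

theorem Near.trans {N : ℕ} {x y z : Amb} (h : Near N x y) (h' : Near N y z) : Near N x z :=
  ⟨fun n hn => (h.1 n hn).trans (h'.1 n hn),
    fun t ht i hi => (h.2.1 t ht i hi).trans (h'.2.1 t ht i hi),
    fun t ht i hi j hj => (h.2.2 t ht i hi j hj).trans (h'.2.2 t ht i hi j hj)⟩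

theorem Near.mono {N N' : ℕ} {x y : Amb} (h : Near N x y) (hN : N' ≤ N) : Near N' x y :=
  ⟨fun n hn => (h.1 n (by omega)), fun t ht i hi => (h.2.1 t (by omega) i (by omega)),
    fun t ht i hi j hj => (h.2.2 t (by omega) i (by omega) j (by omega))⟩

theorem Near.sh {N : ℕ} {x y : Amb} (p : ℤ) (h : Near (N + p.natAbs) x y) :
    Near N (MC.sh p x) (MC.sh p y) := by
  refine ⟨fun n hn => ?_, fun t ht i hi => ?_, fun t ht i hi j hj => ?_⟩
  · show x.1 n + _ = y.1 n + _
    rw [h.1 n (by omega)]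
  · exact h.2.1 (t + p) (by omega) i (by omega)
  · exact h.2.2 (t + p) (by omega) i (by omega) j (by omega)

theorem eventually_near (N : ℕ) (x : Amb) : ∀ᶠ y in 𝓝 x, Near N x y := by
  have h1 : ∀ᶠ y in 𝓝 x, ∀ n ∈ {n | n < N}, x.1 n = y.1 n := by
    rw [eventually_all_finite (Set.finite_lt_nat N)]
    intro n _
    have hc : Continuous fun y : Amb => y.1 n := (continuous_apply n).comp continuous_fst
    have := hc.continuousAt.eventually_mem ((isOpen_discrete {x.1 n}).mem_nhds rfl)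
    filter_upwards [this] with y hy
    exact hy.symm
  have hfin : {t : ℤ | t.natAbs < N}.Finite := by
    apply (Set.finite_Icc (-(N : ℤ)) N).subset
    intro t ht
    simp only [mem_ofPred_eq, mem_Icc] at *
    omega
  have h2 : ∀ᶠ y in 𝓝 x, ∀ t ∈ {t : ℤ | t.natAbs < N}, ∀ i ∈ {n | n < N},
      x.2.1 t i = y.2.1 t i := by
    rw [eventually_all_finite hfin]
    intro t _
    rw [eventually_all_finite (Set.finite_lt_nat N)]
    intro i _
    have hc : Continuous fun y : Amb => y.2.1 t i :=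
      (continuous_apply i).comp ((continuous_apply t).comp (continuous_fst.comp continuous_snd))
    have := hc.continuousAt.eventually_mem ((isOpen_discrete {x.2.1 t i}).mem_nhds rfl)
    filter_upwards [this] with y hy
    exact hy.symm
  have h3 : ∀ᶠ y in 𝓝 x, ∀ t ∈ {t : ℤ | t.natAbs < N}, ∀ i ∈ {n | n < N}, ∀ j ∈ {n | n < N},
      x.2.2 t i j = y.2.2 t i j := by
    rw [eventually_all_finite hfin]
    intro t _
    rw [eventually_all_finite (Set.finite_lt_nat N)]
    intro i _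
    rw [eventually_all_finite (Set.finite_lt_nat N)]
    intro j _
    have hc : Continuous fun y : Amb => y.2.2 t i j :=
      (continuous_apply j).comp ((continuous_apply i).comp
        ((continuous_apply t).comp (continuous_snd.comp continuous_snd)))
    have := hc.continuousAt.eventually_mem ((isOpen_discrete {x.2.2 t i j}).mem_nhds rfl)
    filter_upwards [this] with y hy
    exact hy.symm
  filter_upwards [h1, h2, h3] with y a b c
  exact ⟨a, b, c⟩

theorem tendsto_of_near {α : Type*} {l : Filter α} {f : α → Amb} {x : Amb}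
    (h : ∀ N, ∀ᶠ a in l, Near N x (f a)) : Tendsto f l (𝓝 x) := by
  have e : x = (x.1, x.2.1, x.2.2) := rfl
  rw [e, nhds_prod_eq, nhds_prod_eq]
  refine Tendsto.prodMk (m₁ := fun a => (f a).1) (m₂ := fun a => (f a).2) ?_
    (Tendsto.prodMk (m₁ := fun a => (f a).2.1) (m₂ := fun a => (f a).2.2) ?_ ?_)
  · rw [tendsto_pi_nhds]
    intro n
    refine tendsto_const_nhds.congr' ?_
    filter_upwards [h (n + 1)] with a ha
    exact ha.1 n (by omega)
  · rw [tendsto_pi_nhds]
    intro t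
    rw [tendsto_pi_nhds]
    intro i
    refine tendsto_const_nhds.congr' ?_
    filter_upwards [h (i + t.natAbs + 1)] with a ha
    exact ha.2.1 t (by omega) i (by omega)
  · rw [tendsto_pi_nhds]
    intro t
    rw [tendsto_pi_nhds]
    intro i
    rw [tendsto_pi_nhds]
    intro j
    refine tendsto_const_nhds.congr' ?_
    filter_upwards [h (i + j + t.natAbs + 1)] with a ha
    exact ha.2.2 t (by omega) i (by omega) j (by omega)

theorem exists_near_of_mem_nhds {x : Amb} {U : Set Amb} (hU : U ∈ 𝓝 x) :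
    ∃ N, ∀ y, Near N x y → y ∈ U := by
  by_contra hc
  push Not at hc
  choose f hf1 hf2 using hc
  have : Tendsto f atTop (𝓝 x) := by
    apply tendsto_of_near
    intro N
    filter_upwards [eventually_ge_atTop N] with n hn
    exact (hf1 n).mono hn
  obtain ⟨n, hn⟩ := (this.eventually_mem hU).exists
  exact hf2 n hn

theorem mem_closure_iff_near {S : Set Amb} {x : Amb} :
    x ∈ closure S ↔ ∀ N, ∃ y ∈ S, Near N x y := by
  constructor
  · intro h N
    rw [mem_closure_iff_nhds] at h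
    obtain ⟨y, hy1, hy2⟩ := h _ (eventually_near N x)
    exact ⟨y, hy2, hy1⟩
  · intro h
    rw [mem_closure_iff_nhds]
    intro U hU
    obtain ⟨N, hN⟩ := exists_near_of_mem_nhds hU
    obtain ⟨y, hy1, hy2⟩ := h N
    exact ⟨y, hN y hy2, hy1⟩

/-! ### Recurrence -/

theorem lev_add {L : ℕ} {t p : ℤ} (ht : t ≠ 0) (h1 : |t| < M L) (hp : (M L : ℤ) ∣ p) :
    lev (t + p) = lev t ∧ lev t < L := by
  obtain ⟨h2, h3⟩ := lev_spec ht
  have hl : lev t < L := by
    by_contra hc
    push Not at hc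
    have h4 : (M L : ℤ) ∣ t := (M_dvdZ hc).trans h2
    have h5 := Int.le_of_dvd (by positivity : (0 : ℤ) < |t|) ((dvd_abs _ _).2 h4)
    omega
  refine ⟨?_, hl⟩
  apply lev_eq
  · exact dvd_add h2 ((M_dvdZ hl.le).trans hp)
  · rw [dvd_add_left ((M_dvdZ (Nat.succ_le_of_lt hl)).trans hp)]
    exact h3

theorem near_pos (G : ℕ → ℕ → Bool) (a b a' b' : K) (τ' : Equiv.Perm ℕ) {L N : ℕ} (hN : N ≤ L)
    (q : ℤ) (j : ℕ) (hj : j + 1 < r L)
    (ha : ∀ i ≤ L, st a' b' (q * M (L + 1)) i * k L j i = a i)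
    (hb : ∀ i ≤ L, st a' b' (q * M (L + 1)) i * k L (j + 1) i = b i) :
    Near N (sh (q * M (L + 1) + (j + 1 : ℕ) * M L) (P G a' b' τ')) (P G a b (b L)) ∧
      (∀ i ≤ L, st a' b' (q * M (L + 1) + (j + 1 : ℕ) * M L) i = b i) ∧
      (M L : ℤ) ∣ (q * M (L + 1) + (j + 1 : ℕ) * M L) ∧
      ¬ (M (L + 1) : ℤ) ∣ (q * M (L + 1) + (j + 1 : ℕ) * M L) := by
  set p : ℤ := q * M (L + 1) + (j + 1 : ℕ) * M L with hp
  have hML := M_posZ L
  have hML1 := M_posZ (L + 1)
  have hM1 : (M (L + 1) : ℤ) = r L * M L := by rw [M_succ]; push_cast; ring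
  have hj1 : ((j + 1 : ℕ) : ℤ) * M L + M L ≤ M (L + 1) := by
    have : ((j + 1 : ℕ) : ℤ) + 1 ≤ r L := by exact_mod_cast hj
    rw [hM1]
    nlinarith
  have hj0 : (M L : ℤ) ≤ ((j + 1 : ℕ) : ℤ) * M L := by
    push_cast
    nlinarith [(Nat.cast_nonneg j : (0 : ℤ) ≤ j)]
  have hLM : (L : ℤ) < M L := by exact_mod_cast lt_M L
  have hdvd : (M L : ℤ) ∣ p := by
    refine ⟨q * r L + (j + 1 : ℕ), ?_⟩
    rw [hp, hM1]; ring
  have hndvd : ¬ (M (L + 1) : ℤ) ∣ p := by
    rw [hp, dvd_add_right (Dvd.intro_left q rfl)]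
    intro hd
    have := Int.le_of_dvd (by omega) hd
    omega
  -- sign
  have hsign : ∀ t : ℤ, |t| ≤ M L - 1 → (t + p < 0 ↔ q * M (L + 1) < 0) := by
    intro t ht
    rw [abs_le] at ht
    constructor
    · intro h; omega
    · intro h
      have hq : q < 0 := by
        by_contra hc
        push Not at hc
        have : 0 ≤ q * (M (L + 1) : ℤ) := by positivity
        omega
      have : q * (M (L + 1) : ℤ) ≤ - M (L + 1) := by nlinarith
      omega
  have hst : ∀ t : ℤ, |t| ≤ M L - 1 → ∀ i ≤ L, st a' b' (t + p) i = st a b t i := by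
    intro t ht i hi
    have ht' := abs_le.1 ht
    have hκ : κ0 t = w L t := κ0_eq_of_bound (by omega) (by omega)
    unfold st
    have hs := hsign t ht
    have hs' : (if t + p < 0 then a' else b') = (if q * (M (L + 1) : ℤ) < 0 then a' else b') := by
      by_cases hc : q * (M (L + 1) : ℤ) < 0
      · rw [if_pos hc, if_pos (hs.2 hc)]
      · rw [if_neg hc, if_neg (fun h => hc (hs.1 h))]
    rw [hs']
    unfold st at ha hb
    rcases lt_or_ge t 0 with h0 | h0
    · have e : t + p = q * M (L + 1) + (j + 1 : ℕ) * M L + t := by rw [hp]; ring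
      rw [e, κ0_neg L q j hj t (by omega) h0, if_pos h0, hκ, ← mul_assoc, ← mul_assoc]
      simp only [Pi.mul_apply] at ha ⊢
      rw [ha i hi]
    · have e : t + p = q * M (L + 1) + (j + 1 : ℕ) * M L + t := by rw [hp]; ring
      rw [e, κ0_pos L q j hj t h0 (by omega), if_neg (not_lt.2 h0), hκ, ← mul_assoc, ← mul_assoc]
      simp only [Pi.mul_apply] at hb ⊢
      rw [hb i hi]
  have hst0 : ∀ i ≤ L, st a' b' p i = b i := by
    intro i hi
    have := hst 0 (by simp; omega) i hi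
    rw [zero_add] at this
    rw [this]
    simp [st, κ0_zero]
  refine ⟨⟨?_, ?_, ?_⟩, hst0, hdvd, hndvd⟩
  · intro n hn
    show (0 : ZMod (M n)) + (p : ZMod (M n)) = 0
    rw [zero_add, ZMod.intCast_zmod_eq_zero_iff_dvd]
    exact (M_dvdZ (by omega)).trans hdvd
  · intro t ht i hi
    exact hst t (by rw [abs_le]; omega) i (by omega)
  · intro t ht i hi j' hj'
    show (if t + p = 0 then F G τ' else F G (st a' b' (t + p) (lev (t + p)))) i j' =
      (if t = 0 then F G (b L) else F G (st a b t (lev t))) i j'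
    by_cases h0 : t = 0
    · subst h0
      have hp0 : p ≠ 0 := fun h => hndvd (h ▸ dvd_zero _)
      rw [zero_add, if_neg hp0, if_pos rfl, lev_eq hdvd hndvd, hst0 L le_rfl]
    · obtain ⟨e1, e2⟩ := lev_add (p := p) h0 (by rw [abs_lt]; omega : |t| < M L) hdvd
      have hne : t + p ≠ 0 := by
        intro h
        have hd : (M L : ℤ) ∣ t := by
          have : t = -p := by omega
          rw [this]; exact (dvd_neg.2 hdvd)
        have h5 := Int.le_of_dvd (by positivity : (0 : ℤ) < |t|) ((dvd_abs _ _).2 hd)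
        have h6 : |t| < M L := by rw [abs_lt]; omega
        omega
      rw [if_neg hne, if_neg h0, e1, hst t (by rw [abs_le]; omega) _ e2.le]

/-- recurrence with a display at a finite level -/
theorem rec_level (G : ℕ → ℕ → Bool) (a b a' b' : K) (τ' : Equiv.Perm ℕ) {L N : ℕ} (hN : N ≤ L)
    (s : ℤ) : ∃ p : ℤ, s < p ∧ p ≤ s + 2 * M (L + 1) ∧
      Near N (sh p (P G a' b' τ')) (P G a b (b L)) ∧
      (∀ i ≤ L, st a' b' p i = b i) ∧ (M L : ℤ) ∣ p ∧ ¬ (M (L + 1) : ℤ) ∣ p := by
  set q : ℤ := s / M (L + 1) + 1 with hq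
  have hM := M_posZ (L + 1)
  have h1 : s < q * M (L + 1) := by
    have := Int.lt_ediv_add_one_mul_self s hM
    rw [hq]; exact this
  have h2 : q * M (L + 1) ≤ s + M (L + 1) := by
    have := Int.ediv_mul_le s hM.ne'
    rw [hq]; linarith
  obtain ⟨j, hj, hja, hjb⟩ := k_cover L ((st a' b' (q * M (L + 1)))⁻¹ * a)
    ((st a' b' (q * M (L + 1)))⁻¹ * b)
  have hj1 : ((j + 1 : ℕ) : ℤ) * M L ≤ M (L + 1) := by
    have : ((j + 1 : ℕ) : ℤ) ≤ r L := by exact_mod_cast hj.le
    rw [M_succ]; push_cast at *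
    nlinarith [M_posZ L]
  have hj0 : 0 ≤ ((j + 1 : ℕ) : ℤ) * M L := by positivity
  obtain ⟨c1, c2, c3, c4⟩ := near_pos G a b a' b' τ' hN q j hj
    (fun i hi => by rw [hja i hi]; simp) (fun i hi => by rw [hjb i hi]; simp)
  exact ⟨_, by linarith, by linarith, c1, c2, c3, c4⟩

/-- every permutation is approximated by finitely supported ones -/
theorem approx_perm (τ : Equiv.Perm ℕ) (N : ℕ) : ∃ (L0 : ℕ) (ρ : Equiv.Perm ℕ),
    (∀ L, L0 ≤ L → ρ ∈ Gam L) ∧ ∀ i < N, ρ i = τ i := by
  induction N with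
  | zero => exact ⟨0, 1, fun L _ => (Gam L).one_mem, fun i hi => absurd hi (Nat.not_lt_zero _)⟩
  | succ N ih =>
    obtain ⟨L0, ρ, h1, h2⟩ := ih
    refine ⟨L0 + ρ N + τ N + 1, Equiv.swap (ρ N) (τ N) * ρ, ?_, ?_⟩
    · intro L hL
      refine (Gam L).mul_mem ?_ (h1 L (by omega))
      intro i hi
      exact Equiv.swap_apply_of_ne_of_ne (by omega) (by omega)
    · intro i hi
      rw [Equiv.Perm.mul_apply]
      rcases Nat.lt_succ_iff_lt_or_eq.1 hi with h | h
      · rw [h2 i h]
        refine Equiv.swap_apply_of_ne_of_ne ?_ ?_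
        · rw [← h2 i h]
          intro e
          have := ρ.injective e
          omega
        · intro e
          have := τ.injective e
          omega
      · subst h
        exact Equiv.swap_apply_left _ _

theorem F_congr {G : ℕ → ℕ → Bool} {σ τ : Equiv.Perm ℕ} {N : ℕ}
    (h : ∀ i < N, σ⁻¹ i = τ⁻¹ i) : ∀ i < N, ∀ j < N, F G σ i j = F G τ i j := by
  intro i hi j hj
  unfold F
  rw [h i hi, h j hj]

theorem near_template (G : ℕ → ℕ → Bool) (a b : K) (τ : Equiv.Perm ℕ) (N : ℕ) :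
    ∃ (L : ℕ) (b' : K), N ≤ L ∧ Near N (P G a b' (b' L)) (P G a b τ) := by
  obtain ⟨L0, ρ, h1, h2⟩ := approx_perm τ⁻¹ N
  have hmem : ρ⁻¹ ∈ Gam (L0 + N) := (Gam _).inv_mem (h1 _ (by omega))
  refine ⟨L0 + N, Function.update b (L0 + N) ⟨ρ⁻¹, hmem⟩, by omega, ?_, ?_, ?_⟩
  · intro n _; rfl
  · intro t ht i hi
    show st _ _ t i = st _ _ t i
    unfold st
    have hi' : i ≠ L0 + N := by omega
    by_cases h0 : t < 0
    · simp [h0]
    · simp [h0, Function.update_of_ne hi']
  · intro t ht i hi j hj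
    show (if t = 0 then F G _ else F G (st _ _ t (lev t))) i j =
      (if t = 0 then F G τ else F G (st _ _ t (lev t))) i j
    by_cases h0 : t = 0
    · rw [if_pos h0, if_pos h0, Function.update_self]
      refine F_congr ?_ i hi j hj
      intro i hi
      simpa using h2 i hi
    · rw [if_neg h0, if_neg h0]
      have hN : (N : ℤ) < M N := by exact_mod_cast lt_M N
      have hl := (lev_add (L := N) (p := 0) h0 (by rw [abs_lt]; omega) (dvd_zero _)).2
      have hi' : lev t ≠ L0 + N := by omega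
      have e : st a (Function.update b (L0 + N) ⟨ρ⁻¹, hmem⟩) t (lev t) = st a b t (lev t) := by
        unfold st
        by_cases h0 : t < 0
        · simp [h0]
        · simp [h0, Function.update_of_ne hi']
      rw [e]

theorem rec_point (G : ℕ → ℕ → Bool) (a b a' b' : K) (τ τ' : Equiv.Perm ℕ) (N : ℕ) :
    ∃ R : ℕ, ∀ s : ℤ, ∃ p : ℤ, s < p ∧ p ≤ s + R ∧
      Near N (sh p (P G a' b' τ')) (P G a b τ) := by
  obtain ⟨L, b'', hL, hnear⟩ := near_template G a b τ N
  refine ⟨2 * M (L + 1), fun s => ?_⟩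
  obtain ⟨p, h1, h2, h3, -⟩ := rec_level G a b'' a' b' τ' hL s
  exact ⟨p, h1, by push_cast; exact h2, h3.trans hnear⟩

/-- The minimal set attached to a graph. -/
def X (G : ℕ → ℕ → Bool) : Set Amb := closure (range fun m : ℤ => sh m (P G 1 1 1))

theorem isClosed_X (G : ℕ → ℕ → Bool) : IsClosed (X G) := isClosed_closure

theorem isCompact_X (G : ℕ → ℕ → Bool) : IsCompact (X G) := (isClosed_X G).isCompact

theorem P_mem_X (G : ℕ → ℕ → Bool) (a b : K) (τ : Equiv.Perm ℕ) : P G a b τ ∈ X G := by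
  unfold X
  rw [mem_closure_iff_near]
  intro N
  obtain ⟨R, hR⟩ := rec_point G a b 1 1 τ 1 N
  obtain ⟨p, -, -, h⟩ := hR 0
  exact ⟨_, ⟨p, rfl⟩, h.symm⟩

theorem sh_mem_X {G : ℕ → ℕ → Bool} {x : Amb} (m : ℤ) (hx : x ∈ X G) : sh m x ∈ X G := by
  have h : X G ⊆ sh m ⁻¹' X G := by
    apply closure_minimal
    · rintro _ ⟨n, rfl⟩
      apply subset_closure
      exact ⟨n + m, (sh_sh _ _ _).symm⟩
    · exact (isClosed_X G).preimage (continuous_sh m)
  exact h hx

theorem exists_return {G : ℕ → ℕ → Bool} {x : Amb} (hx : x ∈ X G) (a b : K)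
    (τ : Equiv.Perm ℕ) (N : ℕ) (s0 : ℤ) :
    ∃ p : ℤ, s0 < p ∧ Near N (sh p x) (P G a b τ) := by
  obtain ⟨R, hR⟩ := rec_point G a b 1 1 τ 1 N
  have hx' := hx
  unfold X at hx'
  rw [mem_closure_iff_near] at hx'
  obtain ⟨_, ⟨m, rfl⟩, hy⟩ := hx' (N + R + s0.natAbs)
  obtain ⟨p, h1, h2, h3⟩ := hR (m + s0)
  refine ⟨p - m, by omega, ?_⟩
  have h4 : Near N (sh (p - m) x) (sh (p - m) (sh m (P G 1 1 1))) := by
    apply Near.sh
    apply hy.mono
    omega
  rw [sh_sh] at h4
  have e : m + (p - m) = p := by ring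
  rw [e] at h4
  exact h4.trans h3

theorem dense_orbit {G : ℕ → ℕ → Bool} {x : Amb} (hx : x ∈ X G) :
    X G ⊆ closure (range fun m : ℤ => sh m x) := by
  have h0 : P G 1 1 1 ∈ closure (range fun m : ℤ => sh m x) := by
    rw [mem_closure_iff_near]
    intro N
    obtain ⟨p, -, h⟩ := exists_return hx 1 1 1 N 0
    exact ⟨_, ⟨p, rfl⟩, h.symm⟩
  apply closure_minimal _ isClosed_closure
  rintro _ ⟨m, rfl⟩
  have h : closure (range fun m : ℤ => sh m x) ⊆ sh m ⁻¹' closure (range fun m : ℤ => sh m x) := by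
    apply closure_minimal
    · rintro _ ⟨n, rfl⟩
      apply subset_closure
      exact ⟨n + m, (sh_sh _ _ _).symm⟩
    · exact isClosed_closure.preimage (continuous_sh m)
  exact h h0

theorem sh_ne {x : Amb} {m : ℤ} (hm : m ≠ 0) : sh m x ≠ x := by
  intro h
  obtain ⟨n, hn⟩ := exists_not_dvd hm
  have h1 := congrFun (congrArg Prod.fst h) (n + 1)
  have h2 : x.1 (n + 1) + (m : ZMod (M (n + 1))) = x.1 (n + 1) := h1
  rw [add_eq_left, ZMod.intCast_zmod_eq_zero_iff_dvd] at h2
  exact hn h2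

theorem perfect_X {G : ℕ → ℕ → Bool} {x : Amb} (hx : x ∈ X G) (N : ℕ) :
    ∃ y ∈ X G, y ≠ x ∧ Near N x y := by
  have hx' := hx
  unfold X at hx'
  rw [mem_closure_iff_near] at hx'
  obtain ⟨_, ⟨m, rfl⟩, hy⟩ := hx' N
  obtain ⟨p, h1, h2⟩ := exists_return hx 1 1 1 (N + m.natAbs) m.natAbs
  refine ⟨sh (p + m) x, sh_mem_X _ hx, sh_ne (by omega), hy.trans ?_⟩
  have := (h2.sh m).symm
  rwa [sh_sh] at this

/-! ### Closed relations satisfied by the points of `X G` -/

theorem X_z_cocycle {G : ℕ → ℕ → Bool} {y : Amb} (hy : y ∈ X G) (n : ℕ) (t : ℤ)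
    (h : y.1 n + (t : ZMod (M n)) ≠ 0) :
    y.2.1 t = y.2.1 (t - 1) * φ ((y.1 n + (t : ZMod (M n))).val : ℤ) := by
  funext i
  let c : Amb → ZMod (M n) × Gam i × Gam i := fun y => (y.1 n, y.2.1 t i, y.2.1 (t - 1) i)
  have hc : Continuous c := by
    refine Continuous.prodMk ((continuous_apply n).comp continuous_fst) (Continuous.prodMk ?_ ?_)
    · exact (continuous_apply i).comp
        ((continuous_apply t).comp (continuous_fst.comp continuous_snd))
    · exact (continuous_apply i).comp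
        ((continuous_apply (t - 1)).comp (continuous_fst.comp continuous_snd))
  have hcl : IsClosed (c ⁻¹' {p | p.1 + (t : ZMod (M n)) = 0 ∨
      p.2.1 = p.2.2 * φ ((p.1 + (t : ZMod (M n))).val : ℤ) i}) :=
    (isClosed_discrete _).preimage hc
  have hsub : X G ⊆ c ⁻¹' {p | p.1 + (t : ZMod (M n)) = 0 ∨
      p.2.1 = p.2.2 * φ ((p.1 + (t : ZMod (M n))).val : ℤ) i} := by
    apply closure_minimal _ hcl
    rintro _ ⟨m, rfl⟩
    show (0 + (m : ZMod (M n))) + (t : ZMod (M n)) = 0 ∨ st 1 1 (t + m) i =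
      st 1 1 (t - 1 + m) i * φ (((0 + (m : ZMod (M n))) + (t : ZMod (M n))).val : ℤ) i
    have e : (0 + (m : ZMod (M n))) + (t : ZMod (M n)) = ((t + m : ℤ) : ZMod (M n)) := by
      push_cast; ring
    rw [e]
    by_cases h0 : ((t + m : ℤ) : ZMod (M n)) = 0
    · left; exact h0
    right
    have h1 : ¬ (M n : ℤ) ∣ t + m := by
      rwa [ZMod.intCast_zmod_eq_zero_iff_dvd] at h0
    rw [ZMod.val_intCast]
    have e2 : φ ((t + m) % (M n : ℤ)) = φ (t + m) := by
      have e3 : (t + m) = (t + m) % (M n : ℤ) + M n * ((t + m) / M n) :=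
        (Int.emod_add_mul_ediv _ _).symm
      have h3 : ¬ (M n : ℤ) ∣ (t + m) % (M n : ℤ) := by
        intro hd
        apply h1
        rw [e3]
        exact dvd_add hd (Dvd.intro _ rfl)
      conv_rhs => rw [e3, φ_per n _ _ h3]
    rw [e2]
    have h2 : t + m ≠ 0 := fun h => h1 (h ▸ dvd_zero _)
    have e4 : t - 1 + m = (t + m) - 1 := by ring
    unfold st φ
    rw [e4]
    simp
  rcases hsub hy with h' | h'
  · exact absurd h' h
  · exact h'

theorem X_display {G : ℕ → ℕ → Bool} {y : Amb} (hy : y ∈ X G) (l : ℕ) (t : ℤ)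
    (h0 : y.1 l + (t : ZMod (M l)) = 0) (h1 : y.1 (l + 1) + (t : ZMod (M (l + 1))) ≠ 0) :
    y.2.2 t = F G (y.2.1 t l) := by
  funext i j
  let c : Amb → (ZMod (M l) × ZMod (M (l + 1))) × Gam l × Bool :=
    fun y => ((y.1 l, y.1 (l + 1)), y.2.1 t l, y.2.2 t i j)
  have hc : Continuous c := by
    refine Continuous.prodMk (Continuous.prodMk ((continuous_apply l).comp continuous_fst)
      ((continuous_apply (l + 1)).comp continuous_fst)) (Continuous.prodMk ?_ ?_)
    · exact (continuous_apply l).comp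
        ((continuous_apply t).comp (continuous_fst.comp continuous_snd))
    · exact (continuous_apply j).comp ((continuous_apply i).comp
        ((continuous_apply t).comp (continuous_snd.comp continuous_snd)))
  let S : Set ((ZMod (M l) × ZMod (M (l + 1))) × Gam l × Bool) :=
    {p | p.1.1 + (t : ZMod (M l)) = 0 → p.1.2 + (t : ZMod (M (l + 1))) ≠ 0 →
      p.2.2 = F G p.2.1 i j}
  have hcl : IsClosed (c ⁻¹' S) := (isClosed_discrete _).preimage hc
  have hsub : X G ⊆ c ⁻¹' S := by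
    apply closure_minimal _ hcl
    rintro _ ⟨m, rfl⟩
    show (0 + (m : ZMod (M l))) + (t : ZMod (M l)) = 0 →
      (0 + (m : ZMod (M (l + 1)))) + (t : ZMod (M (l + 1))) ≠ 0 →
      (if t + m = 0 then F G 1 else F G (st 1 1 (t + m) (lev (t + m)))) i j =
        F G (st 1 1 (t + m) l) i j
    intro h2 h3
    have e : (0 + (m : ZMod (M l))) + (t : ZMod (M l)) = ((t + m : ℤ) : ZMod (M l)) := by
      push_cast; ring
    have e' : (0 + (m : ZMod (M (l + 1)))) + (t : ZMod (M (l + 1))) =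
        ((t + m : ℤ) : ZMod (M (l + 1))) := by
      push_cast; ring
    rw [e, ZMod.intCast_zmod_eq_zero_iff_dvd] at h2
    rw [e', Ne, ZMod.intCast_zmod_eq_zero_iff_dvd] at h3
    have h4 : t + m ≠ 0 := fun h => h3 (h ▸ dvd_zero _)
    rw [if_neg h4, lev_eq h2 h3]
  exact hsub hy h0 h1

end Pool.Agent.R806.MC
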